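import Pool.Agent.Helper220_TM.Words

set_option autoImplicit false

/-!
# Counting
-/

namespace Pool.Agent.Helper220_TM

open Finset

/-- Words of length at most `n`. -/
def wds : ℕ → Finset (List Lt)
  | 0 => {[]}
  | n + 1 => {[]} ∪ ((wds n).image (List.cons .A) ∪ ((wds n).image (List.cons .B) ∪
      ((wds n).image (List.cons .C) ∪ (wds n).image (List.cons .D))))

theorem mem_wds (n : ℕ) (w : List Lt) : w ∈ wds n ↔ w.length ≤ n := by
  induction n generalizing w with
  | zero => simp [wds]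
  | succ n ih =>
    cases w with
    | nil => simp [wds]
    | cons s w =>
      simp only [wds, mem_union, mem_image, mem_singleton, List.cons.injEq, List.length_cons,
        reduceCtorEq, false_or, Nat.add_le_add_iff_right]
      constructor
      · rintro (⟨a, h, -, rfl⟩ | ⟨a, h, -, rfl⟩ | ⟨a, h, -, rfl⟩ | ⟨a, h, -, rfl⟩) <;> exact (ih _).1 h
      · intro h
        cases s
        · exact .inl ⟨w, (ih _).2 h, rfl, rfl⟩
        · exact .inr (.inl ⟨w, (ih _).2 h, rfl, rfl⟩)
        · exact .inr (.inr (.inl ⟨w, (ih _).2 h, rfl, rfl⟩))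
        · exact .inr (.inr (.inr ⟨w, (ih _).2 h, rfl, rfl⟩))

theorem card_wds (n : ℕ) : (wds n).card ≤ 5 ^ n := by
  induction n with
  | zero => simp [wds]
  | succ n ih =>
    have h1 := card_union_le ({[]} : Finset (List Lt)) ((wds n).image (List.cons .A) ∪
      ((wds n).image (List.cons .B) ∪ ((wds n).image (List.cons .C) ∪ (wds n).image (List.cons .D))))
    have h2 := card_union_le ((wds n).image (List.cons Lt.A))
      ((wds n).image (List.cons Lt.B) ∪ ((wds n).image (List.cons Lt.C) ∪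
        (wds n).image (List.cons Lt.D)))
    have h3 := card_union_le ((wds n).image (List.cons Lt.B)) ((wds n).image (List.cons Lt.C) ∪
        (wds n).image (List.cons Lt.D))
    have h3' := card_union_le ((wds n).image (List.cons Lt.C)) ((wds n).image (List.cons Lt.D))
    have hA := card_image_le (s := wds n) (f := List.cons Lt.A)
    have hB := card_image_le (s := wds n) (f := List.cons Lt.B)
    have hC := card_image_le (s := wds n) (f := List.cons Lt.C)
    have hD := card_image_le (s := wds n) (f := List.cons Lt.D)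
    have h4 : 1 ≤ 5 ^ n := Nat.one_le_pow _ _ (by norm_num)
    rw [card_singleton] at h1
    have h5 : (5:ℕ) ^ (n + 1) = 5 * 5 ^ n := by ring
    rw [h5]
    show ({[]} ∪ _ : Finset (List Lt)).card ≤ _
    omega

/-! ### Lists of letters -/

/-- Lists of length `m`. -/
def Ls : ℕ → Finset (List V)
  | 0 => {[]}
  | m + 1 => (Ls m).image (List.cons .b) ∪ ((Ls m).image (List.cons .c) ∪ (Ls m).image (List.cons .d))

theorem mem_Ls (m : ℕ) (l : List V) : l ∈ Ls m ↔ l.length = m := by
  induction m generalizing l with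
  | zero => simp [Ls]
  | succ m ih =>
    cases l with
    | nil => simp [Ls]
    | cons e l =>
      simp only [Ls, mem_union, mem_image, List.cons.injEq, List.length_cons,
        Nat.add_right_cancel_iff]
      constructor
      · rintro (⟨a, h, -, rfl⟩ | ⟨a, h, -, rfl⟩ | ⟨a, h, -, rfl⟩) <;> exact (ih _).1 h
      · intro h
        cases e
        · exact .inl ⟨l, (ih _).2 h, rfl, rfl⟩
        · exact .inr (.inl ⟨l, (ih _).2 h, rfl, rfl⟩)
        · exact .inr (.inr ⟨l, (ih _).2 h, rfl, rfl⟩)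

theorem sum_pow_dfc (x : ℝ) (hx : 0 < x) (m : ℕ) :
    ∑ l ∈ Ls m, x ^ dfc l ≤ (1 + 2 * x) ^ m := by
  induction m with
  | zero => simp [Ls, dfc]
  | succ m ih =>
    have hinj : ∀ e : V, Set.InjOn (List.cons e) (Ls m : Set (List V)) :=
      fun e a _ b _ h => (List.cons.inj h).2
    have h1 : ∑ l ∈ Ls (m + 1), x ^ dfc l ≤ ∑ l ∈ (Ls m).image (List.cons .b), x ^ dfc l +
        (∑ l ∈ (Ls m).image (List.cons .c), x ^ dfc l +
          ∑ l ∈ (Ls m).image (List.cons .d), x ^ dfc l) := by
      have hnn : ∀ l : List V, 0 ≤ x ^ dfc l := fun l => by positivity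
      have hu : ∀ s t : Finset (List V), ∑ l ∈ s ∪ t, x ^ dfc l ≤ ∑ l ∈ s, x ^ dfc l +
          ∑ l ∈ t, x ^ dfc l := by
        intro s t
        rw [← sum_union_inter]
        have : 0 ≤ ∑ l ∈ s ∩ t, x ^ dfc l := sum_nonneg fun l _ => hnn l
        linarith
      refine (hu _ _).trans ?_
      have := hu ((Ls m).image (List.cons .c)) ((Ls m).image (List.cons .d))
      linarith
    rw [sum_image (hinj _), sum_image (hinj _), sum_image (hinj _)] at h1
    have h2 : ∑ l ∈ Ls m, x ^ dfc (.b :: l) + (∑ l ∈ Ls m, x ^ dfc (.c :: l) +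
        ∑ l ∈ Ls m, x ^ dfc (.d :: l)) = (1 + 2 * x) * ∑ l ∈ Ls m, x ^ dfc l := by
      simp only [dfc, pow_add, pow_one]
      rw [← mul_sum]
      ring
    rw [h2] at h1
    refine h1.trans ?_
    rw [pow_succ, mul_comm]
    exact mul_le_mul_of_nonneg_right ih (by linarith)

theorem card_few (x : ℝ) (hx : 0 < x) (hx1 : x ≤ 1) (m j : ℕ) :
    (((Ls m).filter fun l => dfc l < j).card : ℝ) * x ^ j ≤ (1 + 2 * x) ^ m := by
  refine le_trans ?_ (sum_pow_dfc x hx m)
  rw [← nsmul_eq_mul]
  refine le_trans ?_ (sum_le_sum_of_subset_of_nonneg (filter_subset (fun l => dfc l < j) (Ls m))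
    (fun l _ _ => by positivity))
  apply card_nsmul_le_sum
  intro l hl
  have := (mem_filter.1 hl).2
  exact pow_le_pow_of_le_one hx.le hx1 this.le

namespace SS

variable {Ω : Type} (S : SS Ω)

open Classical in
/-- The ball of radius `n`. -/
noncomputable def Bn (n : ℕ) : Finset (Equiv.Perm Ω) := ((wds n).filter fun w => W w ≤ n).image S.ev

theorem mem_Bn (n : ℕ) (g : Equiv.Perm Ω) : g ∈ S.Bn n ↔ ∃ w : List Lt, W w ≤ n ∧ S.ev w = g := by
  classical
  simp only [Bn, mem_image, mem_filter, mem_wds]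
  constructor
  · rintro ⟨w, ⟨-, h⟩, e⟩
    exact ⟨w, h, e⟩
  · rintro ⟨w, h, e⟩
    have := length_le_W w
    exact ⟨w, ⟨by omega, h⟩, e⟩

theorem card_Bn_le (n : ℕ) : (S.Bn n).card ≤ 5 ^ n := by
  classical
  exact card_image_le.trans ((card_filter_le _ _).trans (card_wds n))

/-! ### Pairs -/

open Classical in
/-- Pairs of elements of total length at most `m`. -/
noncomputable def Tm (m : ℕ) : Finset (Equiv.Perm Ω × Equiv.Perm Ω) :=
  (range (m + 1)).biUnion fun k => S.Bn k ×ˢ S.Bn (m - k)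

theorem mem_Tm {m : ℕ} {u v : List Lt} (h : W u + W v ≤ m) : (S.ev u, S.ev v) ∈ S.Tm m := by
  classical
  rw [Tm, mem_biUnion]
  refine ⟨W u, mem_range.2 (by omega), ?_⟩
  rw [mem_product, mem_Bn, mem_Bn]
  exact ⟨⟨u, le_rfl, rfl⟩, ⟨v, by omega, rfl⟩⟩

theorem card_Tm (C μ : ℝ) (hC : 0 ≤ C) (hμ : 1 ≤ μ) (hN : ∀ n, ((S.Bn n).card : ℝ) ≤ C * μ ^ n)
    (m : ℕ) : ((S.Tm m).card : ℝ) ≤ ((m : ℝ) + 1) * (C ^ 2 * μ ^ m) := by
  classical
  have h1 : ((S.Tm m).card : ℝ) ≤ ∑ k ∈ range (m + 1), ((S.Bn k ×ˢ S.Bn (m - k)).card : ℝ) := by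
    exact_mod_cast card_biUnion_le
  refine h1.trans ?_
  have h2 : ∀ k ∈ range (m + 1), ((S.Bn k ×ˢ S.Bn (m - k)).card : ℝ) ≤ C ^ 2 * μ ^ m := by
    intro k hk
    rw [card_product]
    push_cast
    have hk' := mem_range.1 hk
    calc ((S.Bn k).card : ℝ) * ((S.Bn (m - k)).card : ℝ) ≤ (C * μ ^ k) * (C * μ ^ (m - k)) :=
          mul_le_mul (hN _) (hN _) (by positivity) (by positivity)
      _ = C ^ 2 * (μ ^ k * μ ^ (m - k)) := by ring
      _ = C ^ 2 * μ ^ m := by
          rw [← pow_add, Nat.add_sub_cancel' (by omega)]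
  refine (sum_le_card_nsmul _ _ _ h2).trans ?_
  rw [nsmul_eq_mul, card_range]
  push_cast
  exact le_rfl

/-! ### The main inequality -/

theorem card_main (n j : ℕ) : (S.Bn n).card ≤
    8 * (4 * (S.Tm (n - j)).card +
      ∑ m ∈ range (n / 4 + 1), ((Ls m).filter fun l => dfc l < j).card) := by
  classical
  -- the elements `ev (wd l)` with many defects are determined by their sections
  set F0 : Finset (List V) := (range (n / 4 + 1)).biUnion fun m => Ls m with hF0
  set F1 : Finset (Equiv.Perm Ω) :=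
    (F0.filter fun l => W (wd l) ≤ n ∧ j ≤ dfc l).image (fun l => S.ev (wd l)) with hF1
  set F2 : Finset (Equiv.Perm Ω) :=
    ((range (n / 4 + 1)).biUnion fun m => (Ls m).filter fun l => dfc l < j).image
      (fun l => S.ev (wd l)) with hF2
  have hF1c : F1.card ≤ 4 * (S.Tm (n - j)).card := by
    -- injection `g ↦ (root, sections)`
    have hx : ∀ g ∈ F1, ∃ p : (Bool → Bool) × (Equiv.Perm Ω × Equiv.Perm Ω),
        p.2 ∈ S.Tm (n - j) ∧ (∀ x, S.E (g x) = p.1 (S.E x)) ∧
        (∀ x, S.E x = true → S.Z (g x) = p.2.1 (S.Z x)) ∧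
        (∀ x, S.E x = false → S.Z (g x) = p.2.2 (S.Z x)) := by
      intro g hg
      rw [hF1, mem_image] at hg
      obtain ⟨l, hl, rfl⟩ := hg
      rw [mem_filter] at hl
      have hc := contraction l
      refine ⟨(rtw (wd l), (S.ev (sec (wd l) true), S.ev (sec (wd l) false))), S.mem_Tm (by omega),
        fun x => S.E_ev _ x, fun x hx => ?_, fun x hx => ?_⟩
      · rw [S.Z_ev, hx]
      · rw [S.Z_ev, hx]
    choose! p hp1 hp2 hp3 hp4 using hx
    have hinj : Set.InjOn p (F1 : Set (Equiv.Perm Ω)) := by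
      intro g hg h hh e
      apply Equiv.ext
      intro x
      have eE : S.E (g x) = S.E (h x) := by rw [hp2 g hg, hp2 h hh, e]
      have eZ : S.Z (g x) = S.Z (h x) := by
        cases hx : S.E x
        · rw [hp4 g hg x hx, hp4 h hh x hx, e]
        · rw [hp3 g hg x hx, hp3 h hh x hx, e]
      exact S.inj _ _ eZ eE
    have h1 : F1.card = (F1.image p).card := (card_image_of_injOn hinj).symm
    rw [h1]
    have h2 : F1.image p ⊆ (univ : Finset (Bool → Bool)) ×ˢ S.Tm (n - j) := by
      intro q hq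
      rw [mem_image] at hq
      obtain ⟨g, hg, rfl⟩ := hq
      rw [mem_product]
      exact ⟨mem_univ _, hp1 g hg⟩
    refine (card_le_card h2).trans ?_
    rw [card_product]
    simp
  have hF2c : F2.card ≤ ∑ m ∈ range (n / 4 + 1), ((Ls m).filter fun l => dfc l < j).card :=
    card_image_le.trans card_biUnion_le
  set U : Finset (Equiv.Perm Ω) := {1, S.pm .B, S.pm .C, S.pm .D} with hU
  set V' : Finset (Equiv.Perm Ω) := {1, S.pm .A} with hV
  have hUc : U.card ≤ 4 := card_le_four
  have hVc : V'.card ≤ 2 := card_le_two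
  have hsub : S.Bn n ⊆ (U ×ˢ V' ×ˢ (F1 ∪ F2)).image (fun t => t.1 * t.2.2 * t.2.1) := by
    intro g hg
    rw [mem_Bn] at hg
    obtain ⟨w, hw, rfl⟩ := hg
    obtain ⟨u, l, v, hu, hv, he, hl⟩ := S.alt w
    rw [mem_image]
    refine ⟨(S.ev u, S.ev v, S.ev (wd l)), ?_, ?_⟩
    · rw [mem_product, mem_product, mem_union]
      have hWl : W (wd l) ≤ n := by omega
      have hlen := W_wd l
      have hlF : l ∈ F0 := by
        rw [hF0, mem_biUnion]
        exact ⟨l.length, mem_range.2 (by omega), (mem_Ls _ _).2 rfl⟩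
      refine ⟨?_, ?_, ?_⟩
      · show S.ev u ∈ U
        rcases hu with rfl | ⟨r, rfl⟩
        · simp [hU, ev]
        · cases r <;> simp [hU, ev, V.lt]
      · show S.ev v ∈ V'
        rcases hv with rfl | rfl <;> simp [hV, ev]
      · show S.ev (wd l) ∈ F1 ∨ S.ev (wd l) ∈ F2
        by_cases hd : dfc l < j
        · right
          rw [hF2, mem_image]
          refine ⟨l, ?_, rfl⟩
          rw [mem_biUnion]
          refine ⟨l.length, mem_range.2 (by omega), ?_⟩
          rw [mem_filter, mem_Ls]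
          exact ⟨rfl, hd⟩
        · left
          rw [hF1, mem_image]
          refine ⟨l, ?_, rfl⟩
          rw [mem_filter]
          exact ⟨hlF, hWl, by omega⟩
    · show S.ev u * S.ev (wd l) * S.ev v = S.ev w
      rw [he, ev_append, ev_append]
  refine ((card_le_card hsub).trans card_image_le).trans ?_
  rw [card_product, card_product]
  have h3 := card_union_le F1 F2
  calc U.card * (V'.card * (F1 ∪ F2).card) ≤ 4 * (2 * (F1.card + F2.card)) :=
        Nat.mul_le_mul hUc (Nat.mul_le_mul hVc h3)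
    _ = 8 * (F1.card + F2.card) := by ring
    _ ≤ _ := by
      apply Nat.mul_le_mul_left
      omega

end SS

end Pool.Agent.Helper220_TM
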