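import Pool.Agent.Helper220_TM.TM

set_option autoImplicit false

/-!
# Desubstitution
-/

namespace Pool.Agent.Helper220_TM

/-- Shift by `a`. -/
def sh (a : ℤ) (x : ℤ → Bool) : ℤ → Bool := fun n => x (n + a)

theorem sh_zero (x : ℤ → Bool) : sh 0 x = x := by
  funext n
  simp [sh]

theorem sh_sh (a b : ℤ) (x : ℤ → Bool) : sh a (sh b x) = sh (a + b) x := by
  funext n
  simp [sh, add_assoc]

theorem occ_sh {x : ℤ → Bool} (h : Occ x) (a : ℤ) : Occ (sh a x) := occ_shift h a

theorem al_sh_one {x : ℤ → Bool} : Al (sh 1 x) 0 ↔ Al x (-1) := by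
  constructor
  · intro h k
    have := h (k - 1)
    simp only [sh] at this
    rw [show 2 * (k - 1) + 0 + 1 + 1 = 2 * k + -1 + 1 by ring,
      show 2 * (k - 1) + 0 + 1 = 2 * k + -1 by ring] at this
    exact this
  · intro h k
    have := h (k + 1)
    simp only [sh]
    rw [show 2 * k + 0 + 1 + 1 = 2 * (k + 1) + -1 + 1 by ring,
      show 2 * k + 0 + 1 = 2 * (k + 1) + -1 by ring]
    exact this

theorem al_sh_neg {x : ℤ → Bool} : Al (sh (-1) x) 0 ↔ Al x (-1) := by
  constructor
  · intro h k
    have := h k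
    simp only [sh] at this
    rw [show 2 * k + 0 + 1 + -1 = 2 * k + -1 + 1 by ring,
      show 2 * k + 0 + -1 = 2 * k + -1 by ring] at this
    exact this
  · intro h k
    have := h k
    simp only [sh]
    rw [show 2 * k + 0 + 1 + -1 = 2 * k + -1 + 1 by ring,
      show 2 * k + 0 + -1 = 2 * k + -1 by ring]
    exact this

theorem lf_not {x y : ℤ → Bool} (hx : Occ x) (hy : Occ y) (h : Al y 0 ↔ Al x (-1)) :
    lf y = !lf x := by
  cases hl : lf x
  · have := (lf_false hx).1 hl
    rw [(lf_true hy).2 (h.2 this)]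
    rfl
  · have h1 := (lf_true hx).1 hl
    cases hm : lf y
    · rfl
    · exact absurd ⟨h1, h.1 ((lf_true hy).1 hm)⟩ (not_both hx)

theorem lf_sh_one {x : ℤ → Bool} (h : Occ x) : lf (sh 1 x) = !lf x :=
  lf_not h (occ_sh h 1) al_sh_one

theorem lf_sh_neg {x : ℤ → Bool} (h : Occ x) : lf (sh (-1) x) = !lf x :=
  lf_not h (occ_sh h (-1)) al_sh_neg

/-- The desubstituted sequence. -/
def ds (x : ℤ → Bool) : ℤ → Bool := fun k => if lf x then x (2 * k) else x (2 * k - 1)

theorem ds_true {x : ℤ → Bool} (h : lf x = true) (k : ℤ) : ds x k = x (2 * k) := by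
  simp [ds, h]

theorem ds_false {x : ℤ → Bool} (h : lf x = false) (k : ℤ) : ds x k = x (2 * k - 1) := by
  simp [ds, h]

theorem ds_true' {x : ℤ → Bool} (hx : Occ x) (h : lf x = true) (k : ℤ) :
    x (2 * k + 1) = !ds x k := by
  rw [ds_true h]
  have := (lf_true hx).1 h k
  rwa [add_zero] at this

theorem ds_false' {x : ℤ → Bool} (hx : Occ x) (h : lf x = false) (k : ℤ) :
    x (2 * k) = !ds x k := by
  rw [ds_false h]
  have := (lf_false hx).1 h k
  rwa [show 2 * k + -1 + 1 = 2 * k by ring, ← sub_eq_add_neg] at this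

/-- If the blocks of `x` begin at the positions `2k+i`, then the sequence of their first letters is in
the subshift. -/
theorem occ_first {x : ℤ → Bool} (h : Occ x) {i : ℤ} (ha : Al x i) : Occ fun k => x (2 * k + i) := by
  intro a m
  obtain ⟨s, hs⟩ := h (2 * a + i) (2 * m + 7)
  rcases Nat.even_or_odd' s with ⟨u, hu | hu⟩
  · refine ⟨u, fun j hj => ?_⟩
    have := hs (2 * j) (by omega)
    rw [hu, show 2 * u + 2 * j = 2 * (u + j) by ring, tm_even] at this
    rw [← this]
    congr 1
    push_cast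
    ring
  · exfalso
    -- the pairs `s+1+2j, s+2+2j` are blocks too
    have h0 := hs 0 (by omega)
    have h1 := hs 1 (by omega)
    have h2 := hs 2 (by omega)
    have h3 := hs 3 (by omega)
    have h4 := hs 4 (by omega)
    subst hu
    have k1 := ha a
    have k2 := ha (a + 1)
    have e2 : tm (2 * u + 1 + 2) = !tm (2 * u + 1 + 1) := by
      rw [show 2 * u + 1 + 2 = 2 * (u + 1) + 1 by ring, show 2 * u + 1 + 1 = 2 * (u + 1) by ring,
        tm_odd, tm_even]
    have e4 : tm (2 * u + 1 + 4) = !tm (2 * u + 1 + 3) := by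
      rw [show 2 * u + 1 + 4 = 2 * (u + 2) + 1 by ring, show 2 * u + 1 + 3 = 2 * (u + 2) by ring,
        tm_odd, tm_even]
    push_cast at h0 h1 h2 h3 h4
    rw [← h1, ← h2] at e2
    rw [← h3, ← h4] at e4
    apply occ_no_alt h (2 * a + i)
    refine ⟨k1, e2, ?_, e4⟩
    rw [show 2 * (a + 1) + i + 1 = 2 * a + i + 3 by ring, show 2 * (a + 1) + i = 2 * a + i + 2 by ring] at k2
    exact k2

theorem occ_ds {x : ℤ → Bool} (h : Occ x) : Occ (ds x) := by
  cases hl : lf x
  · have := occ_first h ((lf_false h).1 hl)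
    have e : ds x = fun k => x (2 * k + -1) := by
      funext k
      rw [ds_false hl, sub_eq_add_neg]
    rw [e]
    exact this
  · have := occ_first h ((lf_true h).1 hl)
    have e : ds x = fun k => x (2 * k + 0) := by
      funext k
      rw [ds_true hl, add_zero]
    rw [e]
    exact this

/-- The second coordinate. -/
def ep (x : ℤ → Bool) : Bool := lf x == lf (ds x)

/-- The substituted sequence. -/
def sb (z : ℤ → Bool) : ℤ → Bool := fun n => if n % 2 = 0 then z (n / 2) else !z (n / 2)

theorem occ_sb {z : ℤ → Bool} (h : Occ z) : Occ (sb z) := by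
  intro i m
  obtain ⟨s, hs⟩ := h (i / 2) (m + 1)
  refine ⟨2 * s + (i % 2).toNat, fun j hj => ?_⟩
  have key : ∀ q : ℕ, tm q = if q % 2 = 0 then tm (q / 2) else !tm (q / 2) := by
    intro q
    rcases Nat.even_or_odd' q with ⟨v, hv | hv⟩
    · subst hv
      rw [tm_even, if_pos (by omega)]
      congr 1
      omega
    · subst hv
      rw [tm_odd, if_neg (by omega)]
      congr 2
      omega
  rw [key]
  obtain ⟨r, hr⟩ : ∃ r : ℕ, r = ((i % 2).toNat + j) / 2 := ⟨_, rfl⟩
  have h1 := hs r (by omega)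
  have e1 : (i + j) / 2 = i / 2 + r := by omega
  have e2 : (2 * s + (i % 2).toNat + j) / 2 = s + r := by omega
  unfold sb
  rw [e1, e2, h1]
  by_cases hc : (i + j) % 2 = 0
  · rw [if_pos hc, if_pos (by omega)]
  · rw [if_neg hc, if_neg (by omega)]

theorem al_sb (z : ℤ → Bool) : Al (sb z) 0 := by
  intro k
  simp only [sb]
  rw [if_neg (by omega), if_pos (by omega)]
  congr 2
  omega

theorem lf_sb {z : ℤ → Bool} (h : Occ z) : lf (sb z) = true := (lf_true (occ_sb h)).2 (al_sb z)

theorem lf_sh_sb {z : ℤ → Bool} (h : Occ z) : lf (sh 1 (sb z)) = false := by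
  rw [lf_sh_one (occ_sb h), lf_sb h]
  rfl

theorem ds_sb {z : ℤ → Bool} (h : Occ z) : ds (sb z) = z := by
  funext k
  rw [ds_true (lf_sb h), sb, if_pos (by omega)]
  congr 1
  omega

theorem ds_sh_sb {z : ℤ → Bool} (h : Occ z) : ds (sh 1 (sb z)) = z := by
  funext k
  rw [ds_false (lf_sh_sb h)]
  simp only [sh, sb]
  rw [if_pos (by omega)]
  congr 1
  omega

/-- **Surjectivity** -/
theorem ds_ep_surj {z : ℤ → Bool} (h : Occ z) (e : Bool) : ∃ x, Occ x ∧ ds x = z ∧ ep x = e := by
  have h1 : ep (sb z) = lf z := by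
    rw [ep, lf_sb h, ds_sb h]
    cases lf z <;> rfl
  have h2 : ep (sh 1 (sb z)) = !lf z := by
    rw [ep, lf_sh_sb h, ds_sh_sb h]
    cases lf z <;> rfl
  by_cases he : lf z = e
  · exact ⟨sb z, occ_sb h, ds_sb h, h1.trans he⟩
  · refine ⟨sh 1 (sb z), occ_sh (occ_sb h) 1, ds_sh_sb h, h2.trans ?_⟩
    cases e <;> simp_all

/-- **Injectivity** -/
theorem ds_ep_inj {x y : ℤ → Bool} (hx : Occ x) (hy : Occ y) (h1 : ds x = ds y) (h2 : ep x = ep y) :
    x = y := by
  have hl : lf x = lf y := by
    unfold ep at h2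
    rw [h1] at h2
    cases a : lf x <;> cases b : lf y <;> cases c : lf (ds y) <;> simp_all
  funext n
  cases hlx : lf x
  · have hly : lf y = false := hl ▸ hlx
    rcases Int.emod_two_eq_zero_or_one n with hn | hn
    · have e : n = 2 * (n / 2) := by omega
      rw [e, ds_false' hx hlx, ds_false' hy hly, h1]
    · have e : n = 2 * ((n + 1) / 2) - 1 := by omega
      rw [e, ← ds_false hlx, ← ds_false hly, h1]
  · have hly : lf y = true := hl ▸ hlx
    rcases Int.emod_two_eq_zero_or_one n with hn | hn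
    · have e : n = 2 * (n / 2) := by omega
      rw [e, ← ds_true hlx, ← ds_true hly, h1]
    · have e : n = 2 * (n / 2) + 1 := by omega
      rw [e, ds_true' hx hlx, ds_true' hy hly, h1]

/-! ### The generators -/

/-- Letters -/
inductive Lt
  | A | B | C | D
  deriving DecidableEq

/-- The cocycles of the generators. -/
def mv : Lt → (ℤ → Bool) → ℤ
  | .A, x => if lf x then 1 else -1
  | .B, x => if lf x then -1 else 1
  | .C, x => if lf x then (if x (-1) = x 0 then -1 else 0) else (if x 0 = x 1 then 1 else 0)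
  | .D, x => if lf x then (if x (-1) = x 0 then 0 else -1) else (if x 0 = x 1 then 0 else 1)

theorem mv_cases (s : Lt) (x : ℤ → Bool) : mv s x = 0 ∨ mv s x = 1 ∨ mv s x = -1 := by
  cases s <;> simp only [mv] <;> split_ifs <;> simp

theorem mv_mv {x : ℤ → Bool} (h : Occ x) (s : Lt) : mv s (sh (mv s x) x) = -mv s x := by
  have h1 := lf_sh_one h
  have h2 := lf_sh_neg h
  have hl : lf x = false ∨ lf x = true := by cases lf x <;> simp
  cases s
  · rcases hl with hl | hl
    · have e : mv .A x = -1 := by simp [mv, hl]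
      rw [e]
      simp [mv, hl, h2]
    · have e : mv .A x = 1 := by simp [mv, hl]
      rw [e]
      simp [mv, hl, h1]
  · rcases hl with hl | hl
    · have e : mv .B x = 1 := by simp [mv, hl]
      rw [e]
      simp [mv, hl, h1]
    · have e : mv .B x = -1 := by simp [mv, hl]
      rw [e]
      simp [mv, hl, h2]
  · rcases hl with hl | hl
    · by_cases h3 : x 0 = x 1
      · have e : mv .C x = 1 := by simp [mv, hl, h3]
        rw [e]
        simp [mv, hl, h1, h3, sh]
      · have e : mv .C x = 0 := by simp [mv, hl, h3]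
        rw [e, sh_zero, e]
        rfl
    · by_cases h3 : x (-1) = x 0
      · have e : mv .C x = -1 := by simp [mv, hl, h3]
        rw [e]
        simp [mv, hl, h2, h3, sh]
      · have e : mv .C x = 0 := by simp [mv, hl, h3]
        rw [e, sh_zero, e]
        rfl
  · rcases hl with hl | hl
    · by_cases h3 : x 0 = x 1
      · have e : mv .D x = 0 := by simp [mv, hl, h3]
        rw [e, sh_zero, e]
        rfl
      · have e : mv .D x = 1 := by simp [mv, hl, h3]
        rw [e]
        simp [mv, hl, h1, h3, sh]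
    · by_cases h3 : x (-1) = x 0
      · have e : mv .D x = 0 := by simp [mv, hl, h3]
        rw [e, sh_zero, e]
        rfl
      · have e : mv .D x = -1 := by simp [mv, hl, h3]
        rw [e]
        simp [mv, hl, h2, h3, sh]

/-! ### The recursion -/

theorem ds_sh_A {x : ℤ → Bool} (h : Occ x) : ds (sh (mv .A x) x) = ds x := by
  funext k
  simp only [mv]
  cases hl : lf x
  · have h2 : lf (sh (-1) x) = true := by rw [lf_sh_neg h, hl]; rfl
    simp only [Bool.false_eq_true, if_false]
    rw [ds_true h2, ds_false hl]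
    rfl
  · have h2 : lf (sh 1 x) = false := by rw [lf_sh_one h, hl]; rfl
    simp only [if_true]
    rw [ds_false h2, ds_true hl]
    simp only [sh]
    congr 1
    ring

theorem ds_sh_pos {x : ℤ → Bool} (h : Occ x) (hl : lf x = false) : ds (sh 1 x) = sh 1 (ds x) := by
  funext k
  have h2 : lf (sh 1 x) = true := by rw [lf_sh_one h, hl]; rfl
  rw [ds_true h2]
  simp only [sh]
  rw [ds_false hl]
  congr 1
  ring

theorem ds_sh_neg {x : ℤ → Bool} (h : Occ x) (hl : lf x = true) : ds (sh (-1) x) = sh (-1) (ds x) := by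
  funext k
  have h2 : lf (sh (-1) x) = false := by rw [lf_sh_neg h, hl]; rfl
  rw [ds_false h2]
  simp only [sh]
  rw [ds_true hl]
  congr 1
  ring

theorem bc (b : Bool) : b = false ∨ b = true := by cases b <;> simp

theorem mv_sign {s : Lt} (hs : s ≠ .A) (x : ℤ → Bool) :
    mv s x = 0 ∨ (mv s x = 1 ∧ lf x = false) ∨ (mv s x = -1 ∧ lf x = true) := by
  cases s
  · exact absurd rfl hs
  · rcases bc (lf x) with hl | hl <;> simp [mv, hl]
  · rcases bc (lf x) with hl | hl
    · by_cases h : x 0 = x 1 <;> simp [mv, hl, h]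
    · by_cases h : x (-1) = x 0 <;> simp [mv, hl, h]
  · rcases bc (lf x) with hl | hl
    · by_cases h : x 0 = x 1 <;> simp [mv, hl, h]
    · by_cases h : x (-1) = x 0 <;> simp [mv, hl, h]

theorem ds_sh {x : ℤ → Bool} (h : Occ x) {s : Lt} (hs : s ≠ .A) :
    ds (sh (mv s x) x) = sh (mv s x) (ds x) := by
  rcases mv_sign hs x with h1 | ⟨h1, h2⟩ | ⟨h1, h2⟩
  · rw [h1, sh_zero, sh_zero]
  · rw [h1, ds_sh_pos h h2]
  · rw [h1, ds_sh_neg h h2]

theorem ep_sh {x : ℤ → Bool} (h : Occ x) {s : Lt} (hs : s ≠ .A) : ep (sh (mv s x) x) = ep x := by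
  unfold ep
  rw [ds_sh h hs]
  rcases mv_sign hs x with h1 | ⟨h1, h2⟩ | ⟨h1, h2⟩
  · rw [h1, sh_zero, sh_zero]
  · rw [h1, lf_sh_one h, lf_sh_one (occ_ds h)]
    cases lf x <;> cases lf (ds x) <;> rfl
  · rw [h1, lf_sh_neg h, lf_sh_neg (occ_ds h)]
    cases lf x <;> cases lf (ds x) <;> rfl

theorem ep_sh_A {x : ℤ → Bool} (h : Occ x) : ep (sh (mv .A x) x) = !ep x := by
  unfold ep
  rw [ds_sh_A h]
  simp only [mv]
  cases hl : lf x
  · simp only [Bool.false_eq_true, if_false]
    rw [lf_sh_neg h, hl]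
    cases lf (ds x) <;> rfl
  · simp only [if_true]
    rw [lf_sh_one h, hl]
    cases lf (ds x) <;> rfl

theorem mv_B {x : ℤ → Bool} : mv .B x = if ep x then mv .B (ds x) else mv .A (ds x) := by
  rcases bc (lf x) with hl | hl <;> rcases bc (lf (ds x)) with hz | hz <;> simp [mv, ep, hl, hz]

/-- Inside a block of `ds x`. -/
theorem ds_block_true {z : ℤ → Bool} (h : Occ z) (hl : lf z = true) : z 1 = !z 0 := by
  have := (lf_true h).1 hl 0
  simpa using this

theorem ds_block_false {z : ℤ → Bool} (h : Occ z) (hl : lf z = false) : z 0 = !z (-1) := by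
  have := (lf_false h).1 hl 0
  simpa using this

theorem edge_true {x : ℤ → Bool} (h : Occ x) (hl : lf x = true) :
    (x (-1) = x 0) ↔ ¬ (ds x (-1) = ds x 0) := by
  have h1 := ds_true' h hl (-1)
  have h2 := ds_true hl 0
  norm_num at h1 h2
  rw [h1, ← h2]
  cases ds x (-1) <;> cases ds x 0 <;> simp

theorem edge_false {x : ℤ → Bool} (h : Occ x) (hl : lf x = false) :
    (x 0 = x 1) ↔ ¬ (ds x 0 = ds x 1) := by
  have h1 := ds_false' h hl 0
  have h2 := ds_false hl 1
  norm_num at h1 h2
  rw [h1, ← h2]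
  cases ds x 0 <;> cases ds x 1 <;> simp

theorem mv_C {x : ℤ → Bool} (h : Occ x) :
    mv .C x = if ep x then mv .D (ds x) else mv .A (ds x) := by
  rcases bc (lf x) with hl | hl
  · have he := edge_false h hl
    rcases bc (lf (ds x)) with hz | hz
    · have hep : ep x = true := by simp [ep, hl, hz]
      by_cases hc : ds x 0 = ds x 1
      · have hn : ¬ x 0 = x 1 := fun h' => (he.1 h') hc
        simp [mv, hep, hl, hz, hc, hn]
      · simp [mv, hep, hl, hz, hc, he.2 hc]
    · have hep : ep x = false := by simp [ep, hl, hz]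
      have hb := ds_block_true (occ_ds h) hz
      have hc : ¬ ds x 0 = ds x 1 := by rw [hb]; simp
      simp [mv, hep, hl, hz, he.2 hc]
  · have he := edge_true h hl
    rcases bc (lf (ds x)) with hz | hz
    · have hep : ep x = false := by simp [ep, hl, hz]
      have hb := ds_block_false (occ_ds h) hz
      have hc : ¬ ds x (-1) = ds x 0 := by rw [hb]; simp
      simp [mv, hep, hl, hz, he.2 hc]
    · have hep : ep x = true := by simp [ep, hl, hz]
      by_cases hc : ds x (-1) = ds x 0
      · have hn : ¬ x (-1) = x 0 := fun h' => (he.1 h') hc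
        simp [mv, hep, hl, hz, hc, hn]
      · simp [mv, hep, hl, hz, hc, he.2 hc]

theorem mv_D {x : ℤ → Bool} (h : Occ x) :
    mv .D x = if ep x then mv .C (ds x) else 0 := by
  rcases bc (lf x) with hl | hl
  · have he := edge_false h hl
    rcases bc (lf (ds x)) with hz | hz
    · have hep : ep x = true := by simp [ep, hl, hz]
      by_cases hc : ds x 0 = ds x 1
      · have hn : ¬ x 0 = x 1 := fun h' => (he.1 h') hc
        simp [mv, hep, hl, hz, hc, hn]
      · simp [mv, hep, hl, hz, hc, he.2 hc]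
    · have hep : ep x = false := by simp [ep, hl, hz]
      have hb := ds_block_true (occ_ds h) hz
      have hc : ¬ ds x 0 = ds x 1 := by rw [hb]; simp
      simp [mv, hep, hl, he.2 hc]
  · have he := edge_true h hl
    rcases bc (lf (ds x)) with hz | hz
    · have hep : ep x = false := by simp [ep, hl, hz]
      have hb := ds_block_false (occ_ds h) hz
      have hc : ¬ ds x (-1) = ds x 0 := by rw [hb]; simp
      simp [mv, hep, hl, he.2 hc]
    · have hep : ep x = true := by simp [ep, hl, hz]
      by_cases hc : ds x (-1) = ds x 0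
      · have hn : ¬ x (-1) = x 0 := fun h' => (he.1 h') hc
        simp [mv, hep, hl, hz, hc, hn]
      · simp [mv, hep, hl, hz, hc, he.2 hc]

end Pool.Agent.Helper220_TM
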