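import Pool.Agent.Helper220_TM.Desub

set_option autoImplicit false

/-!
# Substitution subshifts and topological full groups
-/

namespace Pool.Agent.Helper220_TM

/-- The image of a word under a substitution. -/
def substWord {α : Type} (σ : α → List α) (w : List α) : List α := w.flatMap σ

/-- The substitution subshift: the bi-infinite sequences all of whose finite subwords occur in some
`σ^n(a)`, `n ≥ 1`. -/
def SubstShift {α : Type} (σ : α → List α) : Set (ℤ → α) :=
  {x | ∀ (i : ℤ) (m : ℕ), ∃ (n : ℕ) (a : α), 1 ≤ n ∧
    (List.ofFn fun j : Fin m => x (i + j)) <:+: (substWord σ)^[n] [a]}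

theorem shift_mem {α : Type} {σ : α → List α} {x : ℤ → α} (hx : x ∈ SubstShift σ) (a : ℤ) :
    (fun n => x (n + a)) ∈ SubstShift σ := by
  intro i m
  obtain ⟨n, b, h1, h2⟩ := hx (i + a) m
  refine ⟨n, b, h1, ?_⟩
  have e : (List.ofFn fun j : Fin m => x (i + j + a)) = List.ofFn fun j : Fin m => x (i + a + j) := by
    congr 1
    funext j
    congr 1
    ring
  show (List.ofFn fun j : Fin m => x (i + j + a)) <:+: _
  rw [e]
  exact h2

/-- The left shift on a substitution subshift. -/
def shiftT {α : Type} [TopologicalSpace α] (σ : α → List α) : SubstShift σ ≃ₜ SubstShift σ where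
  toFun x := ⟨fun n => x.1 (n + 1), shift_mem x.2 1⟩
  invFun x := ⟨fun n => x.1 (n + -1), shift_mem x.2 (-1)⟩
  left_inv x := by
    apply Subtype.ext
    funext n
    show x.1 (n + -1 + 1) = x.1 n
    congr 1
    ring
  right_inv x := by
    apply Subtype.ext
    funext n
    show x.1 (n + 1 + -1) = x.1 n
    congr 1
    ring
  continuous_toFun := by
    apply Continuous.subtype_mk
    exact continuous_pi fun n => (continuous_apply (n + 1)).comp continuous_subtype_val
  continuous_invFun := by
    apply Continuous.subtype_mk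
    exact continuous_pi fun n => (continuous_apply (n + -1)).comp continuous_subtype_val

/-- The topological full group of a homeomorphism `T` of `X`: the homeomorphisms `g` of `X` for which
there is a continuous `n : X → ℤ` with `g x = T ^ (n x) x` for all `x`. -/
def fullGroup {X : Type} [TopologicalSpace X] (T : X ≃ₜ X) : Subgroup (X ≃ₜ X) where
  carrier := {g | ∃ n : X → ℤ, Continuous n ∧ ∀ x, g x = (T ^ n x) x}
  one_mem' := ⟨fun _ => 0, continuous_const, fun x => by simp⟩
  mul_mem' := by
    rintro g h ⟨n, hn, hg⟩ ⟨m, hm, hh⟩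
    refine ⟨fun x => n (h x) + m x, (hn.comp h.continuous).add hm, fun x => ?_⟩
    show g (h x) = _
    rw [hg, zpow_add]
    show _ = (T ^ n (h x)) ((T ^ m x) x)
    rw [← hh]
  inv_mem' := by
    rintro g ⟨n, hn, hg⟩
    refine ⟨fun x => -n (g⁻¹ x), (hn.comp (g⁻¹).continuous).neg, fun x => ?_⟩
    obtain ⟨y, rfl⟩ : ∃ y, x = g y := ⟨g⁻¹ x, by
      show x = (g * g⁻¹) x
      simp⟩
    have e : g⁻¹ (g y) = y := by
      show (g⁻¹ * g) y = y
      simp
    show g⁻¹ (g y) = (T ^ (-n (g⁻¹ (g y)))) (g y)
    rw [e, zpow_neg]
    conv_rhs => rw [hg y]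
    show y = ((T ^ n y)⁻¹ * (T ^ n y)) y
    simp

theorem zpow_shiftT {α : Type} [TopologicalSpace α] (σ : α → List α) (k : ℤ) (x : SubstShift σ)
    (n : ℤ) : ((shiftT σ ^ k) x).1 n = x.1 (n + k) := by
  induction k generalizing n with
  | zero => simp
  | succ k ih =>
    rw [zpow_add, zpow_one]
    have e : (shiftT σ ^ (k : ℤ) * shiftT σ) = (shiftT σ * shiftT σ ^ (k : ℤ)) :=
      (Commute.zpow_left (Commute.refl _) _)
    rw [e]
    show ((shiftT σ ^ (k : ℤ)) x).1 (n + 1) = _
    rw [ih]
    congr 1
    ring
  | pred k ih =>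
    rw [zpow_sub, zpow_one]
    have e : (shiftT σ ^ (-(k : ℤ)) * (shiftT σ)⁻¹) = ((shiftT σ)⁻¹ * shiftT σ ^ (-(k : ℤ))) :=
      ((Commute.zpow_left (Commute.refl (shiftT σ)) (-(k : ℤ))).inv_right)
    rw [e]
    show ((shiftT σ ^ (-(k : ℤ))) x).1 (n + -1) = _
    rw [ih]
    congr 1
    ring

/-! ### The Morse subshift -/

/-- The Morse substitution. -/
def morse : Bool → List Bool
  | false => [false, true]
  | true => [true, false]

theorem morse_eq (a : Bool) : morse a = [a, !a] := by cases a <;> rfl

theorem substWord_length (w : List Bool) : (substWord morse w).length = 2 * w.length := by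
  induction w with
  | nil => rfl
  | cons a w ih =>
    have : substWord morse (a :: w) = a :: (!a) :: substWord morse w := by
      simp [substWord, morse_eq]
    rw [this, List.length_cons, List.length_cons, ih, List.length_cons]
    ring

theorem substWord_get (w : List Bool) (j : ℕ) :
    (substWord morse w)[2 * j]? = w[j]? ∧ (substWord morse w)[2 * j + 1]? = w[j]?.map not := by
  induction w generalizing j with
  | nil => simp [substWord]
  | cons a w ih =>
    have : substWord morse (a :: w) = a :: (!a) :: substWord morse w := by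
      simp [substWord, morse_eq]
    rw [this]
    cases j with
    | zero => simp
    | succ j =>
      have h := ih j
      constructor
      · rw [show 2 * (j + 1) = 2 * j + 1 + 1 by ring, List.getElem?_cons_succ, List.getElem?_cons_succ,
          h.1, List.getElem?_cons_succ]
      · rw [show 2 * (j + 1) + 1 = 2 * j + 1 + 1 + 1 by ring, List.getElem?_cons_succ,
          List.getElem?_cons_succ, h.2, List.getElem?_cons_succ]

theorem iter_get (n : ℕ) (a : Bool) (j : ℕ) (hj : j < 2 ^ n) :
    ((substWord morse)^[n] [a])[j]? = some (xor a (tm j)) := by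
  induction n generalizing j with
  | zero =>
    have : j = 0 := by simpa using hj
    subst this
    simp [tm_zero]
  | succ n ih =>
    rw [Function.iterate_succ_apply']
    have h1 : j / 2 < 2 ^ n := by rw [pow_succ] at hj; omega
    have h2 := ih (j / 2) h1
    rcases Nat.even_or_odd' j with ⟨v, hv | hv⟩
    · have e : j / 2 = v := by omega
      rw [e] at h2
      rw [hv, (substWord_get _ v).1, h2, tm_even]
    · have e : j / 2 = v := by omega
      rw [e] at h2
      rw [hv, (substWord_get _ v).2, h2, tm_odd]
      cases a <;> cases tm v <;> rfl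

theorem iter_length (n : ℕ) (a : Bool) : ((substWord morse)^[n] [a]).length = 2 ^ n := by
  induction n with
  | zero => rfl
  | succ n ih => rw [Function.iterate_succ_apply', substWord_length, ih, pow_succ]; ring

/-- The words of `x` occur in the words `σ^n(a)` if and only if they occur in the Thue-Morse
sequence. -/
theorem mem_iff (x : ℤ → Bool) : x ∈ SubstShift morse ↔ Occ x := by
  constructor
  · intro h i m
    obtain ⟨n, a, -, u, v, huv⟩ := h i m
    have hlen := iter_length n a
    rw [← huv] at hlen
    simp only [List.length_append, List.length_ofFn] at hlen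
    have hget : ∀ j < m, x (i + j) = xor a (tm (u.length + j)) := by
      intro j hj
      have h1 := iter_get n a (u.length + j) (by omega)
      rw [← huv, List.append_assoc, List.getElem?_append_right (by omega),
        List.getElem?_append_left (by simp; omega)] at h1
      rw [Nat.add_sub_cancel_left, List.getElem?_ofFn] at h1
      rw [dif_pos hj] at h1
      exact Option.some.inj h1
    cases a
    · refine ⟨u.length, fun j hj => ?_⟩
      rw [hget j hj]
      simp
    · refine ⟨2 ^ n * 1 + u.length, fun j hj => ?_⟩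
      rw [hget j hj, add_assoc, tm_add 1 n _ (by omega)]
      have : tm 1 = true := by simp [tm]
      rw [this]
  · intro h i m
    obtain ⟨s, hs⟩ := h i m
    obtain ⟨n, hn⟩ := pow_unbounded_of_one_lt (s + m + 1) (show 1 < 2 by norm_num)
    refine ⟨n + 1, false, by omega, ?_⟩
    have hlen := iter_length (n + 1) false
    have hn' : s + m < 2 ^ (n + 1) := by rw [pow_succ]; omega
    have e : (List.ofFn fun j : Fin m => x (i + j)) =
        (((substWord morse)^[n + 1] [false]).drop s).take m := by
      apply List.ext_getElem?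
      intro j
      rw [List.getElem?_ofFn, List.getElem?_take, List.getElem?_drop]
      by_cases hj : j < m
      · rw [dif_pos hj, if_pos hj, iter_get _ _ _ (by omega)]
        have := hs j hj
        simp only [Bool.false_xor]
        rw [← this]
      · rw [dif_neg hj, if_neg hj]
    rw [e]
    exact ((List.take_prefix _ _).isInfix).trans ((List.drop_suffix _ _).isInfix)

/-- The Morse subshift. -/
abbrev MX : Type := SubstShift morse

theorem MX.occ (x : MX) : Occ x.1 := (mem_iff x.1).1 x.2

/-- The shift. -/
abbrev MT : MX ≃ₜ MX := shiftT morse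

theorem zpow_MT (k : ℤ) (x : MX) : ((MT ^ k) x).1 = sh k x.1 := by
  funext n
  exact zpow_shiftT morse k x n

/-- The cocycles are continuous. -/
theorem continuous_mv (s : Lt) : Continuous fun x : MX => mv s x.1 := by
  let F : Bool × Bool × Bool × Bool × Bool → ℤ := fun p =>
    mv s fun n => if n = -1 then p.1 else if n = 0 then p.2.1 else if n = 1 then p.2.2.1 else
      if n = 2 then p.2.2.2.1 else p.2.2.2.2
  have hF : Continuous F := continuous_of_discreteTopology
  have hc : ∀ k : ℤ, Continuous fun x : MX => x.1 k := fun k =>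
    (continuous_apply k).comp continuous_subtype_val
  have e : (fun x : MX => mv s x.1) = F ∘ fun x : MX => (x.1 (-1), x.1 0, x.1 1, x.1 2, x.1 3) := by
    funext x
    show mv s x.1 = F (x.1 (-1), x.1 0, x.1 1, x.1 2, x.1 3)
    cases s <;> simp [F, mv, lf]
  rw [e]
  exact hF.comp ((hc (-1)).prodMk ((hc 0).prodMk ((hc 1).prodMk ((hc 2).prodMk (hc 3)))))

/-- The action of the generators. -/
def fn (s : Lt) (x : MX) : MX := (MT ^ mv s x.1) x

theorem fn_val (s : Lt) (x : MX) : (fn s x).1 = sh (mv s x.1) x.1 := zpow_MT _ _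

theorem fn_fn (s : Lt) (x : MX) : fn s (fn s x) = x := by
  apply Subtype.ext
  rw [fn_val, fn_val, mv_mv x.occ, sh_sh]
  simp [sh_zero]

theorem continuous_zpow_MT (k : ℤ) : Continuous fun x : MX => (MT ^ k) x := (MT ^ k).continuous

theorem continuous_fn (s : Lt) : Continuous (fn s) := by
  have h1 : Continuous fun p : ℤ × MX => (MT ^ p.1) p.2 := by
    rw [continuous_prod_of_discrete_left]
    exact fun k => continuous_zpow_MT k
  exact h1.comp ((continuous_mv s).prodMk continuous_id)

/-- The generators as homeomorphisms. -/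
def gen (s : Lt) : MX ≃ₜ MX where
  toFun := fn s
  invFun := fn s
  left_inv := fn_fn s
  right_inv := fn_fn s
  continuous_toFun := continuous_fn s
  continuous_invFun := continuous_fn s

theorem gen_mem (s : Lt) : gen s ∈ fullGroup MT :=
  ⟨fun x => mv s x.1, continuous_mv s, fun _ => rfl⟩

theorem gen_apply (s : Lt) (x : MX) : gen s x = fn s x := rfl

/-! ### The recursion -/

/-- Desubstitution. -/
def Z (x : MX) : MX := ⟨ds x.1, (mem_iff _).2 (occ_ds x.occ)⟩

/-- The second coordinate. -/
def E (x : MX) : Bool := ep x.1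

theorem ZE_inj {x y : MX} (h1 : Z x = Z y) (h2 : E x = E y) : x = y :=
  Subtype.ext (ds_ep_inj x.occ y.occ (congrArg Subtype.val h1) h2)

theorem ZE_surj (z : MX) (e : Bool) : ∃ x, Z x = z ∧ E x = e := by
  obtain ⟨x, h1, h2, h3⟩ := ds_ep_surj z.occ e
  exact ⟨⟨x, (mem_iff x).2 h1⟩, Subtype.ext h2, h3⟩

theorem Z_A (x : MX) : Z (fn .A x) = Z x := by
  apply Subtype.ext
  show ds (fn .A x).1 = ds x.1
  rw [fn_val]
  exact ds_sh_A x.occ

theorem E_A (x : MX) : E (fn .A x) = !E x := by
  show ep (fn .A x).1 = !ep x.1
  rw [fn_val]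
  exact ep_sh_A x.occ

theorem E_ne {s : Lt} (hs : s ≠ .A) (x : MX) : E (fn s x) = E x := by
  show ep (fn s x).1 = ep x.1
  rw [fn_val]
  exact ep_sh x.occ hs

theorem Z_B (x : MX) : Z (fn .B x) = if E x then fn .B (Z x) else fn .A (Z x) := by
  apply Subtype.ext
  show ds (fn .B x).1 = _
  rw [fn_val, ds_sh x.occ (by decide), mv_B]
  show sh (if ep x.1 then mv .B (ds x.1) else mv .A (ds x.1)) (ds x.1) = _
  by_cases h : ep x.1 = true
  · have h' : E x = true := h
    rw [if_pos h, if_pos h', fn_val]; rfl
  · have h' : ¬ E x = true := h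
    rw [if_neg h, if_neg h', fn_val]; rfl

theorem Z_C (x : MX) : Z (fn .C x) = if E x then fn .D (Z x) else fn .A (Z x) := by
  apply Subtype.ext
  show ds (fn .C x).1 = _
  rw [fn_val, ds_sh x.occ (by decide), mv_C x.occ]
  by_cases h : ep x.1 = true
  · have h' : E x = true := h
    rw [if_pos h, if_pos h', fn_val]; rfl
  · have h' : ¬ E x = true := h
    rw [if_neg h, if_neg h', fn_val]; rfl

theorem Z_D (x : MX) : Z (fn .D x) = if E x then fn .C (Z x) else Z x := by
  apply Subtype.ext
  show ds (fn .D x).1 = _
  rw [fn_val, ds_sh x.occ (by decide), mv_D x.occ]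
  by_cases h : ep x.1 = true
  · have h' : E x = true := h
    rw [if_pos h, if_pos h', fn_val]; rfl
  · have h' : ¬ E x = true := h
    rw [if_neg h, if_neg h', sh_zero]; rfl

/-- The subshift is not empty. -/
theorem MX_nonempty : Nonempty MX := ⟨⟨x0, (mem_iff x0).2 occ_x0⟩⟩

end Pool.Agent.Helper220_TM
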