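import Pool.Agent.Helper220_TM.Tree
import Pool.Agent.Helper220_TM.Full
import Pool.Agent.H342_Gap.Assembly

set_option autoImplicit false

/-!
# Intermediate growth
-/

namespace Pool.Agent.Helper220_TM

open Filter Topology

/-- The ball of radius `n`: the products of at most `n` factors from `S ∪ S⁻¹`. -/
def ball {G : Type} [Group G] (S : Set G) (n : ℕ) : Set G :=
  {g | ∃ l : List G, l.length ≤ n ∧ (∀ x ∈ l, x ∈ S ∨ x⁻¹ ∈ S) ∧ l.prod = g}

/-- The growth function. -/
noncomputable def growth {G : Type} [Group G] (S : Set G) (n : ℕ) : ℕ := (ball S n).ncard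

/-- Intermediate growth: the group is finitely generated, and for every finite generating set the
growth function is, for large `n`, above every polynomial and below every exponential function
`exp (c n)`, `c > 0`. -/
def IntermediateGrowth (G : Type) [Group G] : Prop :=
  Group.FG G ∧ ∀ S : Set G, S.Finite → Subgroup.closure S = ⊤ →
    (∀ (C : ℝ) (d : ℕ), ∀ᶠ n : ℕ in atTop, C * (n : ℝ) ^ d ≤ growth S n) ∧
    ∀ c : ℝ, 0 < c → ∀ᶠ n : ℕ in atTop, (growth S n : ℝ) ≤ Real.exp (c * n)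

/-- From `exp (n ^ α) ⪯ γ` to superpolynomial growth. -/
theorem superpoly {f : ℕ → ℕ} (hf : Monotone f) {β : ℝ} (hβ : 0 < β)
    (h : H342_Gap.Dom (H342_Gap.expF β) f) (C : ℝ) (d : ℕ) :
    ∀ᶠ n : ℕ in atTop, C * (n : ℝ) ^ d ≤ f n := by
  obtain ⟨D, hD, h1⟩ := h
  have hD0 : (0 : ℝ) < D := by exact_mod_cast hD
  -- `exp (m ^ β) / m ^ d → ∞`
  obtain ⟨e, he⟩ := exists_nat_ge ((d : ℝ) / β)
  have t1 : Tendsto (fun m : ℕ => (m : ℝ) ^ β) atTop atTop :=
    (tendsto_rpow_atTop hβ).comp tendsto_natCast_atTop_atTop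
  have t2 : Tendsto (fun y : ℝ => Real.exp y / y ^ e) atTop atTop := Real.tendsto_exp_div_pow_atTop e
  have t3 := t2.comp t1
  have t4 : Tendsto (fun n : ℕ => n / D) atTop atTop := Nat.tendsto_div_const_atTop (by omega)
  have ev := (t3.comp t4).eventually_ge_atTop (|C| * (2 * D) ^ d + 1)
  have ev2 := t4.eventually_ge_atTop 1
  filter_upwards [ev, ev2] with n hn hn1
  set m := n / D with hm
  have hm1 : (1 : ℝ) ≤ m := by exact_mod_cast hn1
  have hnm : n < D * m + D := by
    have h8 := Nat.div_add_mod n D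
    have h9 := Nat.mod_lt n (show 0 < D by omega)
    rw [← hm] at h8
    omega
  have hnm' : (n : ℝ) ≤ 2 * D * m := by
    have h2 : (n : ℝ) ≤ D * m + D := by exact_mod_cast hnm.le
    nlinarith
  have hmb : 1 ≤ (m : ℝ) ^ β := Real.one_le_rpow hm1 hβ.le
  have hn' : |C| * (2 * D) ^ d + 1 ≤ Real.exp ((m : ℝ) ^ β) / ((m : ℝ) ^ β) ^ e := hn
  rw [le_div_iff₀ (by positivity)] at hn'
  have hmd : (m : ℝ) ^ d ≤ ((m : ℝ) ^ β) ^ e := by
    rw [← Real.rpow_natCast (m : ℝ) d, ← Real.rpow_natCast ((m : ℝ) ^ β) e,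
      ← Real.rpow_mul (by linarith)]
    apply Real.rpow_le_rpow_of_exponent_le hm1
    rw [div_le_iff₀ hβ] at he
    linarith
  have hmd1 : (1 : ℝ) ≤ (m : ℝ) ^ d := one_le_pow₀ hm1
  have h2 : H342_Gap.expF β m ≤ f n := (h1 m).trans (hf (by
    rw [hm]
    exact Nat.mul_div_le n D))
  have h3 : Real.exp ((m : ℝ) ^ β) - 1 ≤ (f n : ℝ) := by
    have h4 : Real.exp ((m : ℝ) ^ β) - 1 < (H342_Gap.expF β m : ℝ) := by
      have := Nat.sub_one_lt_floor (Real.exp ((m : ℝ) ^ β))
      exact this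
    have h5 : (H342_Gap.expF β m : ℝ) ≤ f n := by exact_mod_cast h2
    linarith
  refine le_trans ?_ h3
  have h6 : C * (n : ℝ) ^ d ≤ |C| * (2 * D) ^ d * (m : ℝ) ^ d := by
    calc C * (n : ℝ) ^ d ≤ |C| * (n : ℝ) ^ d :=
          mul_le_mul_of_nonneg_right (le_abs_self C) (by positivity)
      _ ≤ |C| * (2 * D * m) ^ d :=
          mul_le_mul_of_nonneg_left (pow_le_pow_left₀ (by positivity) hnm' d) (abs_nonneg C)
      _ = |C| * (2 * D) ^ d * (m : ℝ) ^ d := by rw [mul_pow]; ring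
  have h7 : (|C| * (2 * D) ^ d + 1) * (m : ℝ) ^ d ≤ Real.exp ((m : ℝ) ^ β) :=
    (mul_le_mul_of_nonneg_left hmd (by positivity)).trans hn'
  nlinarith

/-! ### The subgroup -/

/-- The Morse subshift with its generators. -/
def SM : SS MX where
  f := fn
  ff := fn_fn
  CD x := by
    apply Subtype.ext
    rw [fn_val, fn_val, sh_sh, fn_val]
    congr 1
    rcases bc (lf x.1) with hl | hl
    · by_cases h : x.1 0 = x.1 1
      · have e : mv .D x.1 = 0 := by simp [mv, hl, h]
        rw [e, sh_zero]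
        simp [mv, hl, h]
      · have e : mv .D x.1 = 1 := by simp [mv, hl, h]
        rw [e]
        have h1 := lf_sh_one x.occ
        simp [mv, hl, h1, h, sh]
    · by_cases h : x.1 (-1) = x.1 0
      · have e : mv .D x.1 = 0 := by simp [mv, hl, h]
        rw [e, sh_zero]
        simp [mv, hl, h]
      · have e : mv .D x.1 = -1 := by simp [mv, hl, h]
        rw [e]
        have h1 := lf_sh_neg x.occ
        simp [mv, hl, h1, h, sh]
  Z := Z
  E := E
  inj x y h1 h2 := ZE_inj h1 h2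
  surj := ZE_surj
  E_A := E_A
  Z_A := Z_A
  E_ne s hs := E_ne hs
  Z_B := Z_B
  Z_C := Z_C
  Z_D := Z_D

/-- The subgroup of the full group generated by the four involutions. -/
def HM : Subgroup (MX ≃ₜ MX) := Subgroup.closure (Set.range gen)

theorem HM_le : HM ≤ fullGroup MT := by
  unfold HM
  rw [Subgroup.closure_le]
  rintro g ⟨s, rfl⟩
  exact gen_mem s

/-- Homeomorphisms as permutations. -/
def toPerm : (MX ≃ₜ MX) →* Equiv.Perm MX where
  toFun g := g.toEquiv
  map_one' := rfl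
  map_mul' _ _ := rfl

theorem toPerm_inj : Function.Injective toPerm := fun g h e => by
  apply Homeomorph.ext
  intro x
  exact congrFun (congrArg DFunLike.coe e) x

theorem toPerm_gen (s : Lt) : toPerm (gen s) = SM.pm s := rfl

theorem map_HM : HM.map toPerm = SM.Gp := by
  unfold HM SS.Gp
  rw [MonoidHom.map_closure]
  congr 1
  rw [← Set.range_comp]
  rfl

theorem mem_Gp (g : HM) : toPerm g.1 ∈ SM.Gp := by
  rw [← map_HM]
  exact ⟨g.1, g.2, rfl⟩

/-- The homomorphism from `HM` onto the group of permutations. -/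
def toGp : HM →* SM.Gp := (toPerm.comp HM.subtype).codRestrict SM.Gp mem_Gp

theorem toGp_surj : Function.Surjective toGp := by
  rintro ⟨p, hp⟩
  have hp' := hp
  rw [← map_HM] at hp'
  obtain ⟨g, hg, rfl⟩ := hp'
  exact ⟨⟨g, hg⟩, rfl⟩

theorem W_reverse (w : List Lt) : W w.reverse = W w := by
  simp [W, List.map_reverse, List.sum_reverse]

theorem ev_reverse {Ω : Type} (S : SS Ω) (w : List Lt) : S.ev w.reverse = (S.ev w)⁻¹ := by
  induction w with
  | nil => simp [SS.ev]
  | cons s w ih =>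
    rw [List.reverse_cons, SS.ev_append, ih, SS.ev_cons S s w, mul_inv_rev, SS.ev_cons, SS.ev_nil,
      mul_one]
    congr 1

theorem exists_word (g : HM) : ∃ w : List Lt, SM.ev w = toPerm g.1 := by
  have h := mem_Gp g
  generalize toPerm g.1 = p at h
  unfold SS.Gp at h
  induction h using Subgroup.closure_induction with
  | mem x hx =>
    obtain ⟨s, rfl⟩ := hx
    exact ⟨[s], by simp [SS.ev]⟩
  | one => exact ⟨[], rfl⟩
  | mul x y _ _ hx hy =>
    obtain ⟨u, hu⟩ := hx
    obtain ⟨v, hv⟩ := hy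
    exact ⟨u ++ v, by rw [SS.ev_append, hu, hv]⟩
  | inv x _ hx =>
    obtain ⟨u, hu⟩ := hx
    exact ⟨u.reverse, by rw [ev_reverse, hu]⟩

/-- Upper bound of the growth function. -/
theorem growth_le (T : Set HM) (hT : T.Finite) : ∃ K : ℕ, 1 ≤ K ∧ ∀ n, growth T n ≤ (SM.Bn (K * n)).card := by
  choose w hw using exists_word
  obtain ⟨K, hK⟩ := (hT.image fun x => W (w x)).bddAbove
  refine ⟨K + 1, by omega, fun n => ?_⟩
  have hw1 : ∀ x : HM, (x ∈ T ∨ x⁻¹ ∈ T) → ∃ u : List Lt, W u ≤ K + 1 ∧ SM.ev u = toPerm x.1 := by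
    rintro x (h | h)
    · have := hK (Set.mem_image_of_mem _ h)
      exact ⟨w x, this.trans (Nat.le_succ _), hw x⟩
    · have := hK (Set.mem_image_of_mem _ h)
      refine ⟨(w x⁻¹).reverse, ?_, ?_⟩
      · rw [W_reverse]
        exact this.trans (Nat.le_succ _)
      · rw [ev_reverse, hw]
        show (toPerm (x.1)⁻¹)⁻¹ = _
        rw [map_inv, inv_inv]
  have key : ∀ l : List HM, (∀ x ∈ l, x ∈ T ∨ x⁻¹ ∈ T) →
      ∃ v : List Lt, W v ≤ (K + 1) * l.length ∧ SM.ev v = toPerm (l.prod).1 := by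
    intro l
    induction l with
    | nil => exact fun _ => ⟨[], by simp [W], by simp [SS.ev]⟩
    | cons x l ih =>
      intro hl
      obtain ⟨v, hv, h1⟩ := ih fun y hy => hl y (by simp [hy])
      obtain ⟨u, hu, h2⟩ := hw1 x (hl x (by simp))
      refine ⟨u ++ v, ?_, ?_⟩
      · rw [W_append, List.length_cons, Nat.mul_succ]
        omega
      · rw [SS.ev_append, h1, h2, List.prod_cons]
        show _ = toPerm (x.1 * (l.prod).1)
        rw [map_mul]
  have hinj : Function.Injective fun g : HM => toPerm g.1 := fun g h e =>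
    Subtype.ext (toPerm_inj e)
  have hsub : (fun g : HM => toPerm g.1) '' ball T n ⊆ (SM.Bn ((K + 1) * n) : Set (Equiv.Perm MX)) := by
    rintro p ⟨g, ⟨l, h1, h2, rfl⟩, rfl⟩
    obtain ⟨v, hv, h3⟩ := key l h2
    rw [Finset.mem_coe, SS.mem_Bn]
    exact ⟨v, hv.trans (Nat.mul_le_mul_left _ h1), h3⟩
  unfold growth
  rw [← Set.ncard_image_of_injective _ hinj, ← Set.ncard_coe_finset]
  exact Set.ncard_le_ncard hsub (Finset.finite_toSet _)

theorem subexp (T : Set HM) (hT : T.Finite) (c : ℝ) (hc : 0 < c) :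
    ∀ᶠ n : ℕ in atTop, (growth T n : ℝ) ≤ Real.exp (c * n) := by
  obtain ⟨K, hK, h1⟩ := growth_le T hT
  have hK0 : (0 : ℝ) < K := by exact_mod_cast hK
  obtain ⟨-, C, hC, h2⟩ := SM.Ex_all (Real.exp (c / (2 * K))) (Real.one_lt_exp_iff.2 (by positivity))
  have t1 : Tendsto (fun n : ℕ => c / 2 * (n : ℝ)) atTop atTop :=
    tendsto_natCast_atTop_atTop.const_mul_atTop (by positivity)
  filter_upwards [t1.eventually_ge_atTop (Real.log C)] with n hn
  have h3 : (growth T n : ℝ) ≤ ((SM.Bn (K * n)).card : ℝ) := by exact_mod_cast h1 n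
  have h4 := h2 (K * n)
  have h5 : Real.exp (c / (2 * K)) ^ (K * n) = Real.exp (c / 2 * n) := by
    rw [← Real.exp_nat_mul]
    congr 1
    push_cast
    field_simp
  rw [h5] at h4
  have h6 : C ≤ Real.exp (c / 2 * n) := by
    rw [← Real.log_le_iff_le_exp hC]
    exact hn
  calc (growth T n : ℝ) ≤ C * Real.exp (c / 2 * n) := h3.trans h4
    _ ≤ Real.exp (c / 2 * n) * Real.exp (c / 2 * n) :=
        mul_le_mul_of_nonneg_right h6 (Real.exp_pos _).le
    _ = Real.exp (c * n) := by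
        rw [← Real.exp_add]
        congr 1
        ring

theorem superp (T : Set HM) (hT : T.Finite) (hgen : Subgroup.closure T = ⊤) (C : ℝ) (d : ℕ) :
    ∀ᶠ n : ℕ in atTop, C * (n : ℝ) ^ d ≤ growth T n := by
  have : Nonempty MX := MX_nonempty
  let f : (⊤ : Subgroup HM) →* H776R2.Om.Gom oma := (SM.hom.comp toGp).comp (Subgroup.subtype ⊤)
  have hf : Function.Surjective f := by
    intro y
    obtain ⟨p, hp⟩ := SM.hom_surj y
    obtain ⟨g, hg⟩ := toGp_surj p
    exact ⟨⟨g, trivial⟩, by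
      show SM.hom (toGp g) = y
      rw [hg, hp]⟩
  have h1 : H342_Gap.Dom (H342_Gap.gro (H342_Gap.SO oma)) (H342_Gap.gro T) :=
    H342_Gap.Dom_section hT hgen ⊤ f hf (H342_Gap.SO_finite oma)
  have h2 := (H342_Full.lower_NEC nec_oma).trans h1
  exact superpoly (H342_Gap.gro_mono hT) Pool.Agent.H776R2.Grig.H_alpha_pos h2 C d

theorem HM_intermediate : IntermediateGrowth HM := by
  refine ⟨?_, fun T hT hgen => ⟨superp T hT hgen, subexp T hT⟩⟩
  rw [Group.fg_iff_subgroup_fg]
  have hfin : (Set.range gen).Finite := by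
    have : Finite Lt := Finite.of_surjective (fun i : Fin 4 => if i = 0 then Lt.A else if i = 1 then
      Lt.B else if i = 2 then Lt.C else Lt.D) (by
        intro s
        cases s
        · exact ⟨0, rfl⟩
        · exact ⟨1, rfl⟩
        · exact ⟨2, rfl⟩
        · exact ⟨3, rfl⟩)
    exact Set.finite_range gen
  exact ⟨hfin.toFinset, by simp [HM]⟩

end Pool.Agent.Helper220_TM
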