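import Mathlib

set_option autoImplicit false

/-!
# The Thue-Morse sequence and the bi-infinite sequences all of whose words occur in it
-/

namespace Pool.Agent.Helper220_TM

/-- The Thue-Morse sequence. -/
def tm (n : ℕ) : Bool := (Nat.bitIndices n).length % 2 == 1

theorem tm_zero : tm 0 = false := by simp [tm]

theorem tm_even (n : ℕ) : tm (2 * n) = tm n := by
  unfold tm
  rw [Nat.bitIndices_two_mul]
  simp

theorem tm_odd (n : ℕ) : tm (2 * n + 1) = !tm n := by
  unfold tm
  rw [Nat.bitIndices_two_mul_add_one]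
  simp only [List.length_cons, List.length_map]
  rcases Nat.mod_two_eq_zero_or_one (Nat.bitIndices n).length with h | h
  · have : ((Nat.bitIndices n).length + 1) % 2 = 1 := by omega
    simp [h, this]
  · have : ((Nat.bitIndices n).length + 1) % 2 = 0 := by omega
    simp [h, this]

theorem tm_add (q m r : ℕ) (hr : r < 2 ^ m) : tm (2 ^ m * q + r) = xor (tm q) (tm r) := by
  induction m generalizing r with
  | zero =>
    have : r = 0 := by simpa using hr
    subst this
    simp [tm_zero]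
  | succ m ih =>
    have h1 : r / 2 < 2 ^ m := by
      rw [pow_succ] at hr
      omega
    have h2 := ih (r / 2) h1
    rcases Nat.even_or_odd' r with ⟨k, hk | hk⟩
    · have e1 : 2 ^ (m + 1) * q + r = 2 * (2 ^ m * q + r / 2) := by rw [pow_succ]; subst hk; rw [Nat.mul_div_cancel_left _ (by norm_num)]; ring
      rw [e1, tm_even, h2]
      have e2 : r / 2 = k := by omega
      rw [e2, hk, tm_even]
    · have e1 : 2 ^ (m + 1) * q + r = 2 * (2 ^ m * q + r / 2) + 1 := by
        have e2 : r / 2 = k := by omega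
        rw [e2, hk, pow_succ]; ring
      rw [e1, tm_odd, h2]
      have e2 : r / 2 = k := by omega
      rw [e2, hk, tm_odd]
      cases tm q <;> cases tm k <;> rfl

/-- Reversal. -/
theorem tm_rev (k : ℕ) (j : ℕ) (hj : j < 4 ^ k) : tm (4 ^ k - 1 - j) = tm j := by
  induction k generalizing j with
  | zero =>
    have : j = 0 := by simpa using hj
    subst this
    simp
  | succ k ih =>
    have h4 : 4 ^ (k + 1) = 4 * 4 ^ k := by rw [pow_succ]; ring
    have hj' : j / 4 < 4 ^ k := by omega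
    have h1 := ih (j / 4) hj'
    obtain ⟨q, hq⟩ : ∃ q, q = j / 4 := ⟨_, rfl⟩
    obtain ⟨p, hp⟩ : ∃ p, p = 4 ^ k - 1 - q := ⟨_, rfl⟩
    rw [← hq, ← hp] at h1
    have hlt : q < 4 ^ k := by omega
    have t4 : ∀ n, tm (4 * n) = tm n ∧ tm (4 * n + 1) = !tm n ∧ tm (4 * n + 2) = !tm n ∧
        tm (4 * n + 3) = tm n := by
      intro n
      refine ⟨?_, ?_, ?_, ?_⟩
      · rw [show 4 * n = 2 * (2 * n) by ring, tm_even, tm_even]
      · rw [show 4 * n + 1 = 2 * (2 * n) + 1 by ring, tm_odd, tm_even]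
      · rw [show 4 * n + 2 = 2 * (2 * n + 1) by ring, tm_even, tm_odd]
      · rw [show 4 * n + 3 = 2 * (2 * n + 1) + 1 by ring, tm_odd, tm_odd]; simp
    have hr : j = 4 * q ∨ j = 4 * q + 1 ∨ j = 4 * q + 2 ∨ j = 4 * q + 3 := by omega
    rcases hr with h | h | h | h
    · have e : 4 ^ (k + 1) - 1 - j = 4 * p + 3 := by omega
      rw [e, h, (t4 p).2.2.2, (t4 q).1, h1]
    · have e : 4 ^ (k + 1) - 1 - j = 4 * p + 2 := by omega
      rw [e, h, (t4 p).2.2.1, (t4 q).2.1, h1]
    · have e : 4 ^ (k + 1) - 1 - j = 4 * p + 1 := by omega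
      rw [e, h, (t4 p).2.1, (t4 q).2.2.1, h1]
    · have e : 4 ^ (k + 1) - 1 - j = 4 * p := by omega
      rw [e, h, (t4 p).1, (t4 q).2.2.2, h1]

/-- All finite subwords of `x` occur in the Thue-Morse sequence. -/
def Occ (x : ℤ → Bool) : Prop := ∀ (i : ℤ) (m : ℕ), ∃ s : ℕ, ∀ j < m, x (i + j) = tm (s + j)

theorem occ_shift {x : ℤ → Bool} (h : Occ x) (a : ℤ) : Occ (fun n => x (n + a)) := by
  intro i m
  obtain ⟨s, hs⟩ := h (i + a) m
  refine ⟨s, fun j hj => ?_⟩
  rw [← hs j hj]
  show x (i + j + a) = _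
  congr 1
  ring

/-- The point of the subshift with `x (-1 - n) = x n`. -/
def x0 (n : ℤ) : Bool := if 0 ≤ n then tm n.toNat else tm (-1 - n).toNat

theorem occ_x0 : Occ x0 := by
  intro i m
  obtain ⟨k, hk⟩ : ∃ k : ℕ, i.natAbs + m + 1 ≤ 4 ^ k := by
    obtain ⟨k, hk⟩ := pow_unbounded_of_one_lt (i.natAbs + m + 1) (show 1 < 4 by norm_num)
    exact ⟨k, hk.le⟩
  have key : ∀ n : ℤ, -(4 ^ k : ℤ) ≤ n → n < 4 ^ k → x0 n = tm (6 * 4 ^ k + n).toNat := by
    intro n h1 h2
    have h4 : (4 : ℕ) ^ k = 2 ^ (2 * k) := by rw [pow_mul]; norm_num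
    unfold x0
    by_cases hn : 0 ≤ n
    · rw [if_pos hn]
      obtain ⟨r, rfl⟩ := Int.eq_ofNat_of_zero_le hn
      have hr : r < 2 ^ (2 * k) := by rw [← h4]; exact_mod_cast h2
      have e : ((6 : ℤ) * 4 ^ k + (r : ℤ)).toNat = 2 ^ (2 * k) * 6 + r := by
        rw [← h4]
        have : ((6 : ℤ) * 4 ^ k + (r : ℤ)) = ((4 ^ k * 6 + r : ℕ) : ℤ) := by push_cast; ring
        rw [this, Int.toNat_natCast]
      rw [e, tm_add _ _ _ hr]
      have : tm 6 = false := by simp [tm, Nat.bitIndices]; decide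
      simp [this]
    · rw [if_neg hn]
      obtain ⟨r, hr⟩ : ∃ r : ℕ, (r : ℤ) = -1 - n := ⟨(-1 - n).toNat, Int.toNat_of_nonneg (by omega)⟩
      have hrlt : r < 4 ^ k := by
        have : (r : ℤ) < 4 ^ k := by omega
        exact_mod_cast this
      have e0 : (-1 - n).toNat = r := by omega
      rw [e0]
      have hr' : 4 ^ k - 1 - r < 2 ^ (2 * k) := by rw [← h4]; omega
      have e : ((6 : ℤ) * 4 ^ k + n).toNat = 2 ^ (2 * k) * 5 + (4 ^ k - 1 - r) := by
        rw [← h4]
        have : ((6 : ℤ) * 4 ^ k + n) = ((4 ^ k * 5 + (4 ^ k - 1 - r) : ℕ) : ℤ) := by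
          have hle : 1 + r ≤ 4 ^ k := by omega
          have : ((4 ^ k - 1 - r : ℕ) : ℤ) = 4 ^ k - 1 - r := by
            rw [Nat.cast_sub (by omega), Nat.cast_sub (by omega)]; push_cast; ring
          push_cast [this]
          linarith
        rw [this, Int.toNat_natCast]
      rw [e, tm_add _ _ _ hr', tm_rev k r hrlt]
      have : tm 5 = false := by simp [tm, Nat.bitIndices]; decide
      simp [this]
  have hkZ : ((i.natAbs : ℤ) + m + 1) ≤ 4 ^ k := by exact_mod_cast hk
  have hpos : (0 : ℤ) ≤ 6 * 4 ^ k + i := by omega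
  refine ⟨(6 * 4 ^ k + i).toNat, fun j hj => ?_⟩
  rw [key (i + j) (by omega) (by omega)]
  congr 1
  have hj' : (0 : ℤ) ≤ j := by positivity
  omega

/-! ### The alignment of the blocks -/

/-- The pairs `x (2k+i), x (2k+i+1)` are blocks. -/
def Al (x : ℤ → Bool) (i : ℤ) : Prop := ∀ k : ℤ, x (2 * k + i + 1) = !x (2 * k + i)

/-- No word of length 5 alternates. -/
theorem tm_no_alt (s : ℕ) : ¬ ∀ j < 4, tm (s + j + 1) = !tm (s + j) := by
  intro h
  have h0 := h 0 (by norm_num)
  have h1 := h 1 (by norm_num)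
  have h2 := h 2 (by norm_num)
  have h3 := h 3 (by norm_num)
  have key : ∀ u, ¬ (tm u = tm (u + 1) ∧ tm (u + 1) = tm (u + 2)) := by
    rintro u ⟨e1, e2⟩
    rcases Nat.even_or_odd' u with ⟨v, hv | hv⟩
    · subst hv
      rw [tm_odd, tm_even] at e1
      simp at e1
    · subst hv
      rw [show 2 * v + 1 + 1 = 2 * (v + 1) by ring, show 2 * v + 1 + 2 = 2 * (v + 1) + 1 by ring,
        tm_odd, tm_even] at e2
      simp at e2
  rcases Nat.even_or_odd' s with ⟨u, hu | hu⟩
  · subst hu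
    apply key u
    rw [show 2 * u + 0 + 1 = 2 * u + 1 by ring, show 2 * u + 0 = 2 * u by ring, tm_odd, tm_even] at h0
    rw [show 2 * u + 1 + 1 = 2 * (u + 1) by ring, tm_even, tm_odd] at h1
    rw [show 2 * u + 3 + 1 = 2 * (u + 2) by ring, show 2 * u + 3 = 2 * (u + 1) + 1 by ring, tm_even,
      tm_odd] at h3
    constructor
    · rw [h1]; simp
    · rw [h3]; simp
  · subst hu
    apply key u
    rw [show 2 * u + 1 + 0 + 1 = 2 * (u + 1) by ring, show 2 * u + 1 + 0 = 2 * u + 1 by ring, tm_even,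
      tm_odd] at h0
    rw [show 2 * u + 1 + 2 + 1 = 2 * (u + 2) by ring, show 2 * u + 1 + 2 = 2 * (u + 1) + 1 by ring,
      tm_even, tm_odd] at h2
    constructor
    · rw [h0]; simp
    · rw [h2]; simp

theorem occ_no_alt {x : ℤ → Bool} (h : Occ x) (i : ℤ) :
    ¬ (x (i + 1) = !x i ∧ x (i + 2) = !x (i + 1) ∧ x (i + 3) = !x (i + 2) ∧
      x (i + 4) = !x (i + 3)) := by
  rintro ⟨e0, e1, e2, e3⟩
  obtain ⟨s, hs⟩ := h i 5
  have h0 := hs 0 (by norm_num)
  have h1 := hs 1 (by norm_num)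
  have h2 := hs 2 (by norm_num)
  have h3 := hs 3 (by norm_num)
  have h4 := hs 4 (by norm_num)
  simp only [Nat.cast_zero, add_zero, Nat.cast_one, Nat.cast_ofNat] at h0 h1 h2 h3 h4
  apply tm_no_alt s
  intro j hj
  interval_cases j
  · rw [add_zero, ← h1, ← h0, e0]
  · rw [show s + 1 + 1 = s + 2 by ring, ← h1, ← h2, e1]
  · rw [show s + 2 + 1 = s + 3 by ring, ← h3, ← h2, e2]
  · rw [show s + 3 + 1 = s + 4 by ring, ← h4, ← h3, e3]

/-- If `x p = x (p+1)` and `x q = x (q+1)` then `p` and `q` have the same parity. -/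
theorem occ_parity {x : ℤ → Bool} (h : Occ x) {p q : ℤ} (hp : x p = x (p + 1))
    (hq : x q = x (q + 1)) : (p - q) % 2 = 0 := by
  wlog hpq : p ≤ q generalizing p q with H
  · have := H hq hp (by omega)
    omega
  obtain ⟨m, rfl⟩ : ∃ m : ℕ, q = p + m := ⟨(q - p).toNat, by omega⟩
  obtain ⟨s, hs⟩ := h p (m + 2)
  have key : ∀ u, tm u = tm (u + 1) → u % 2 = 1 := by
    intro u e
    rcases Nat.even_or_odd' u with ⟨v, hv | hv⟩
    · subst hv
      rw [tm_odd, tm_even] at e
      simp at e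
    · omega
  have h0 := hs 0 (by omega)
  have h1 := hs 1 (by omega)
  have h2 := hs m (by omega)
  have h3 := hs (m + 1) (by omega)
  simp only [Nat.cast_zero, add_zero, Nat.cast_one] at h0 h1
  push_cast at h3
  rw [show p + (↑m + 1) = p + m + 1 by ring] at h3
  have k1 := key s (by rw [← h0, ← h1, hp])
  have k2 := key (s + m) (by rw [add_assoc s m 1, ← h2, ← h3, hq])
  omega

theorem al_or {x : ℤ → Bool} (h : Occ x) : Al x 0 ∨ Al x (-1) := by
  by_contra hc
  push Not at hc
  obtain ⟨h1, h2⟩ := hc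
  unfold Al at h1 h2
  push Not at h1 h2
  obtain ⟨k, hk⟩ := h1
  obtain ⟨l, hl⟩ := h2
  have e1 : x (2 * k) = x (2 * k + 1) := by
    rw [add_zero] at hk
    cases hx : x (2 * k) <;> cases hy : x (2 * k + 1) <;> simp_all
  have e2 : x (2 * l - 1) = x (2 * l - 1 + 1) := by
    rw [← sub_eq_add_neg] at hl
    cases hx : x (2 * l - 1) <;> cases hy : x (2 * l - 1 + 1) <;> simp_all
  have := occ_parity h e1 e2
  omega

theorem not_both {x : ℤ → Bool} (h : Occ x) : ¬ (Al x 0 ∧ Al x (-1)) := by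
  rintro ⟨h1, h2⟩
  apply occ_no_alt h 0
  have a0 := h1 0
  have a1 := h2 1
  have a2 := h1 1
  have a3 := h2 2
  norm_num at a0 a1 a2 a3 ⊢
  exact ⟨a0, a1, a2, a3⟩

/-- The origin is the left letter of its block (a local rule). -/
def lf (x : ℤ → Bool) : Bool :=
  if x 0 = x 1 then false else if x 1 = x 2 then true else if x 2 = x 3 then false else true

theorem lf_true {x : ℤ → Bool} (h : Occ x) : lf x = true ↔ Al x 0 := by
  unfold lf
  split_ifs with h1 h2 h3
  · simp only [Bool.false_eq_true, false_iff]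
    intro ha
    have := ha 0
    norm_num at this
    rw [this] at h1
    simp at h1
  · simp only [true_iff]
    rcases al_or h with ha | ha
    · exact ha
    · have := ha 1
      norm_num at this
      rw [this] at h2
      simp at h2
  · simp only [Bool.false_eq_true, false_iff]
    intro ha
    have := ha 1
    norm_num at this
    rw [this] at h3
    simp at h3
  · simp only [true_iff]
    rcases al_or h with ha | ha
    · exact ha
    · exfalso
      have h4 := ha 2
      norm_num at h4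
      apply occ_no_alt h 0
      norm_num
      refine ⟨?_, ?_, ?_, h4⟩
      · cases hx : x 0 <;> cases hy : x 1 <;> simp_all
      · cases hx : x 1 <;> cases hy : x 2 <;> simp_all
      · cases hx : x 2 <;> cases hy : x 3 <;> simp_all

theorem lf_false {x : ℤ → Bool} (h : Occ x) : lf x = false ↔ Al x (-1) := by
  have h1 := lf_true h
  constructor
  · intro h2
    rcases al_or h with ha | ha
    · rw [h1.2 ha] at h2
      exact absurd h2 (by decide)
    · exact ha
  · intro ha
    cases hl : lf x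
    · rfl
    · exact absurd ⟨h1.1 hl, ha⟩ (not_both h)

end Pool.Agent.Helper220_TM
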