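import Pool.Agent.Helper220_TM.Growth
import Pool.Agent.H342_Full.Final

set_option autoImplicit false

/-!
# The map onto the Grigorchuk group `G_ω`, `ω = 0101…`
-/

namespace Pool.Agent.Helper220_TM

open Pool.Agent.H776R2

/-- The sequence `0101…`. -/
def oma : Om.Om := fun n => if n % 2 = 0 then 0 else 1

/-- The sequence `1010…`. -/
def omb : Om.Om := fun n => if n % 2 = 0 then 1 else 0

theorem sh_oma : Om.sh oma = omb := by
  funext n
  show (if (n + 1) % 2 = 0 then (0 : Fin 3) else 1) = if n % 2 = 0 then 1 else 0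
  by_cases h : n % 2 = 0
  · rw [if_pos h, if_neg (by omega)]
  · rw [if_neg h, if_pos (by omega)]

theorem sh_omb : Om.sh omb = oma := by
  funext n
  show (if (n + 1) % 2 = 0 then (1 : Fin 3) else 0) = if n % 2 = 0 then 0 else 1
  by_cases h : n % 2 = 0
  · rw [if_pos h, if_neg (by omega)]
  · rw [if_neg h, if_pos (by omega)]

theorem nec_oma : H342_Full.NEC oma := by
  intro n
  refine ⟨n, le_rfl, ?_⟩
  show (if n % 2 = 0 then (0 : Fin 3) else 1) ≠ if (n + 1) % 2 = 0 then 0 else 1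
  by_cases h : n % 2 = 0
  · rw [if_pos h, if_neg (by omega)]
    decide
  · rw [if_neg h, if_pos (by omega)]
    decide

theorem oma_zero : oma 0 = 0 := rfl
theorem omb_zero : omb 0 = 1 := rfl

/-- The letters `c` and `d` are exchanged. -/
theorem swp (w : List Bool) : Om.xFun .b omb w = Om.xFun .b oma w ∧
    Om.xFun .c omb w = Om.xFun .d oma w ∧ Om.xFun .d omb w = Om.xFun .c oma w := by
  induction w with
  | nil => exact ⟨rfl, rfl, rfl⟩
  | cons e w ih =>
    obtain ⟨h1, h2, h3⟩ := ih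
    cases e
    · refine ⟨?_, ?_, ?_⟩ <;> simp [Om.xFun, oma_zero, omb_zero, Om.col]
    · refine ⟨?_, ?_, ?_⟩
      · simp only [Om.xFun, sh_oma, sh_omb, h1]
      · simp only [Om.xFun, sh_oma, sh_omb, h3]
      · simp only [Om.xFun, sh_oma, sh_omb, h2]

/-- The action of the letters on the tree. -/
def ta : Lt → List Bool → List Bool
  | .A => Pool.Agent.Results.MP_03d093_al.SphereBall.aFun
  | .B => Om.xFun .b oma
  | .C => Om.xFun .c oma
  | .D => Om.xFun .d oma

/-- The permutations of the letters. -/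
def tp : Lt → Grig.P
  | .A => Pool.Agent.Results.MP_03d093_al.SphereBall.a
  | .B => Om.xx oma .b
  | .C => Om.xx oma .c
  | .D => Om.xx oma .d

theorem tp_apply (s : Lt) (w : List Bool) : tp s w = ta s w := by cases s <;> rfl

theorem tp_mem (s : Lt) : tp s ∈ Om.Gom oma := by
  apply Subgroup.subset_closure
  cases s <;> simp [tp]

theorem tp_inv (s : Lt) : (tp s)⁻¹ = tp s := by
  cases s <;> rfl

theorem Gom_eq : Om.Gom oma = Subgroup.closure (Set.range tp) := by
  unfold Om.Gom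
  congr 1
  ext x
  simp only [Set.mem_insert_iff, Set.mem_singleton_iff, Set.mem_range]
  constructor
  · rintro (h | h | h | h)
    · exact ⟨.A, h.symm⟩
    · exact ⟨.B, h.symm⟩
    · exact ⟨.C, h.symm⟩
    · exact ⟨.D, h.symm⟩
  · rintro ⟨s, rfl⟩
    cases s <;> simp [tp]

namespace SS

variable {Ω : Type} (S : SS Ω)

/-- The vertex of level `k` below which a point lies. -/
def tau : ℕ → Ω → List Bool
  | 0, _ => []
  | k + 1, x => S.E x :: tau k (S.Z x)

theorem tau_length (k : ℕ) (x : Ω) : (S.tau k x).length = k := by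
  induction k generalizing x with
  | zero => rfl
  | succ k ih => simp [tau, ih]

theorem tau_surj [Nonempty Ω] (v : List Bool) : ∃ x, S.tau v.length x = v := by
  induction v with
  | nil => exact ⟨Classical.arbitrary Ω, rfl⟩
  | cons e v ih =>
    obtain ⟨z, hz⟩ := ih
    obtain ⟨x, h1, h2⟩ := S.surj z e
    refine ⟨x, ?_⟩
    show S.E x :: S.tau v.length (S.Z x) = e :: v
    rw [h1, h2, hz]

theorem tau_f (k : ℕ) (s : Lt) (x : Ω) : S.tau k (S.f s x) = tp s (S.tau k x) := by
  rw [tp_apply]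
  induction k generalizing s x with
  | zero =>
    cases s <;> rfl
  | succ k ih =>
    show S.E (S.f s x) :: S.tau k (S.Z (S.f s x)) = ta s (S.E x :: S.tau k (S.Z x))
    have hsw := swp (S.tau k (S.Z x))
    cases s
    · rw [S.E_A, S.Z_A]
      rfl
    · rw [S.E_ne .B (by decide), S.Z_B]
      cases hE : S.E x
      · rw [if_neg (by decide), ih]
        simp [ta, Om.xFun, oma_zero, Om.col]
      · rw [if_pos rfl, ih]
        simp [ta, Om.xFun, sh_oma, hsw.1]
    · rw [S.E_ne .C (by decide), S.Z_C]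
      cases hE : S.E x
      · rw [if_neg (by decide), ih]
        simp [ta, Om.xFun, oma_zero, Om.col]
      · rw [if_pos rfl, ih]
        simp [ta, Om.xFun, sh_oma, hsw.2.1]
    · rw [S.E_ne .D (by decide), S.Z_D]
      cases hE : S.E x
      · rw [if_neg (by decide)]
        simp [ta, Om.xFun, oma_zero, Om.col]
      · rw [if_pos rfl, ih]
        simp [ta, Om.xFun, sh_oma, hsw.2.2]

/-- The relation between the permutations of `Ω` and of the tree. -/
def Rel (g : Equiv.Perm Ω) (p : Grig.P) : Prop := ∀ k x, S.tau k (g x) = p (S.tau k x)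

theorem Rel_pm (s : Lt) : S.Rel (S.pm s) (tp s) := fun k x => S.tau_f k s x

theorem Rel_one : S.Rel 1 1 := fun _ _ => rfl

theorem Rel_mul {g h : Equiv.Perm Ω} {p q : Grig.P} (h1 : S.Rel g p) (h2 : S.Rel h q) :
    S.Rel (g * h) (p * q) := fun k x => by
  rw [Equiv.Perm.mul_apply, Equiv.Perm.mul_apply, h1, h2]

theorem Rel_inv {g : Equiv.Perm Ω} {p : Grig.P} (h : S.Rel g p) : S.Rel g⁻¹ p⁻¹ := fun k x => by
  have := h k (g.symm x)
  rw [Equiv.apply_symm_apply] at this
  show S.tau k (g.symm x) = p.symm (S.tau k x)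
  rw [this, Equiv.symm_apply_apply]

theorem Rel_unique [Nonempty Ω] {g : Equiv.Perm Ω} {p q : Grig.P} (h1 : S.Rel g p)
    (h2 : S.Rel g q) : p = q := by
  apply Equiv.ext
  intro v
  obtain ⟨x, hx⟩ := S.tau_surj v
  rw [← hx, ← h1, ← h2]

/-- The group generated by the letters. -/
def Gp : Subgroup (Equiv.Perm Ω) := Subgroup.closure (Set.range S.pm)

theorem Rel_exists {g : Equiv.Perm Ω} (hg : g ∈ S.Gp) : ∃ p ∈ Om.Gom oma, S.Rel g p := by
  induction hg using Subgroup.closure_induction with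
  | mem x hx =>
    obtain ⟨s, rfl⟩ := hx
    exact ⟨tp s, tp_mem s, S.Rel_pm s⟩
  | one => exact ⟨1, one_mem _, S.Rel_one⟩
  | mul x y _ _ hx hy =>
    obtain ⟨p, h1, h2⟩ := hx
    obtain ⟨q, h3, h4⟩ := hy
    exact ⟨p * q, mul_mem h1 h3, S.Rel_mul h2 h4⟩
  | inv x _ hx =>
    obtain ⟨p, h1, h2⟩ := hx
    exact ⟨p⁻¹, inv_mem h1, S.Rel_inv h2⟩

/-- The homomorphism onto `G_ω`. -/
noncomputable def hom [Nonempty Ω] : S.Gp →* Om.Gom oma where
  toFun g := ⟨(S.Rel_exists g.2).choose, (S.Rel_exists g.2).choose_spec.1⟩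
  map_one' := by
    apply Subtype.ext
    exact S.Rel_unique (S.Rel_exists (1 : S.Gp).2).choose_spec.2 S.Rel_one
  map_mul' g h := by
    apply Subtype.ext
    exact S.Rel_unique (S.Rel_exists (g * h).2).choose_spec.2
      (S.Rel_mul (S.Rel_exists g.2).choose_spec.2 (S.Rel_exists h.2).choose_spec.2)

theorem hom_rel [Nonempty Ω] (g : S.Gp) : S.Rel g.1 (S.hom g).1 :=
  (S.Rel_exists g.2).choose_spec.2

theorem hom_surj [Nonempty Ω] : Function.Surjective S.hom := by
  rw [← MonoidHom.range_eq_top, eq_top_iff]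
  rintro ⟨p, hp⟩ -
  have hp' := hp
  rw [Gom_eq] at hp'
  have key : ∃ g : S.Gp, S.Rel g.1 p := by
    clear hp
    induction hp' using Subgroup.closure_induction with
    | mem x hx =>
      obtain ⟨s, rfl⟩ := hx
      exact ⟨⟨S.pm s, Subgroup.subset_closure ⟨s, rfl⟩⟩, S.Rel_pm s⟩
    | one => exact ⟨1, S.Rel_one⟩
    | mul x y _ _ hx hy =>
      obtain ⟨g, h1⟩ := hx
      obtain ⟨h, h2⟩ := hy
      exact ⟨g * h, S.Rel_mul h1 h2⟩
    | inv x _ hx =>
      obtain ⟨g, h1⟩ := hx
      exact ⟨g⁻¹, S.Rel_inv h1⟩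
  obtain ⟨g, hg⟩ := key
  refine ⟨g, Subtype.ext ?_⟩
  exact S.Rel_unique (S.hom_rel g) hg

/-- Injectivity -/
theorem tau_inj_of {g : Equiv.Perm Ω} (hg : S.Rel g 1) (x : Ω) (k : ℕ) :
    S.tau k (g x) = S.tau k x := hg k x

end SS

end Pool.Agent.Helper220_TM
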