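import Pool.Agent.Helper220_TM.Desub

set_option autoImplicit false

/-!
# Groups with the recursion `A = swap`, `B = (A, B)`, `C = (A, D)`, `D = (1, C)`
-/

namespace Pool.Agent.Helper220_TM

/-- The data: a set with four involutions satisfying the recursion. -/
structure SS (Ω : Type) where
  f : Lt → Ω → Ω
  ff : ∀ s x, f s (f s x) = x
  CD : ∀ x, f .C (f .D x) = f .B x
  Z : Ω → Ω
  E : Ω → Bool
  inj : ∀ x y, Z x = Z y → E x = E y → x = y
  surj : ∀ z e, ∃ x, Z x = z ∧ E x = e
  E_A : ∀ x, E (f .A x) = !E x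
  Z_A : ∀ x, Z (f .A x) = Z x
  E_ne : ∀ s, s ≠ .A → ∀ x, E (f s x) = E x
  Z_B : ∀ x, Z (f .B x) = if E x then f .B (Z x) else f .A (Z x)
  Z_C : ∀ x, Z (f .C x) = if E x then f .D (Z x) else f .A (Z x)
  Z_D : ∀ x, Z (f .D x) = if E x then f .C (Z x) else Z x

namespace SS

variable {Ω : Type} (S : SS Ω)

/-- The permutation of a letter. -/
def pm (s : Lt) : Equiv.Perm Ω where
  toFun := S.f s
  invFun := S.f s
  left_inv := S.ff s
  right_inv := S.ff s

theorem pm_apply (s : Lt) (x : Ω) : S.pm s x = S.f s x := rfl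

/-- The element defined by a word; the last letter acts first. -/
def ev (w : List Lt) : Equiv.Perm Ω := (w.map S.pm).prod

theorem ev_nil : S.ev [] = 1 := rfl
theorem ev_cons (s : Lt) (w : List Lt) : S.ev (s :: w) = S.pm s * S.ev w := by simp [ev]
theorem ev_append (v w : List Lt) : S.ev (v ++ w) = S.ev v * S.ev w := by simp [ev]

theorem pp (s : Lt) : S.pm s * S.pm s = 1 := Equiv.ext fun x => S.ff s x

theorem CDB : S.pm .C * S.pm .D = S.pm .B := Equiv.ext fun x => S.CD x

theorem DCB : S.pm .D * S.pm .C = S.pm .B := by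
  have h1 := S.CDB
  have h2 : (S.pm .D * S.pm .C) * (S.pm .C * S.pm .D) = 1 := by
    rw [mul_assoc, ← mul_assoc (S.pm .C), S.pp, one_mul, S.pp]
  rw [h1] at h2
  have h3 := S.pp .B
  calc S.pm .D * S.pm .C = S.pm .D * S.pm .C * (S.pm .B * S.pm .B) := by rw [h3, mul_one]
    _ = (S.pm .D * S.pm .C * S.pm .B) * S.pm .B := by rw [mul_assoc, mul_assoc, mul_assoc]
    _ = S.pm .B := by rw [h2, one_mul]

theorem BCD : S.pm .B * S.pm .C = S.pm .D := by
  rw [← S.DCB, mul_assoc, S.pp, mul_one]

theorem CBD : S.pm .C * S.pm .B = S.pm .D := by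
  rw [← S.CDB, ← mul_assoc, S.pp, one_mul]

theorem BDC : S.pm .B * S.pm .D = S.pm .C := by
  rw [← S.CDB, mul_assoc, S.pp, mul_one]

theorem DBC : S.pm .D * S.pm .B = S.pm .C := by
  rw [← S.DCB, ← mul_assoc, S.pp, one_mul]

end SS

/-! ### Sections of words -/

/-- Root action of a letter. -/
def rt : Lt → Bool → Bool
  | .A, e => !e
  | .B, e => e
  | .C, e => e
  | .D, e => e

/-- Sections of a letter. -/
def st : Lt → Bool → List Lt
  | .A, _ => []
  | .B, true => [.B]
  | .B, false => [.A]
  | .C, true => [.D]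
  | .C, false => [.A]
  | .D, true => [.C]
  | .D, false => []

/-- Root action of a word. -/
def rtw : List Lt → Bool → Bool
  | [], e => e
  | s :: w, e => rt s (rtw w e)

/-- Sections of a word. -/
def sec : List Lt → Bool → List Lt
  | [], _ => []
  | s :: w, e => st s (rtw w e) ++ sec w e

namespace SS

variable {Ω : Type} (S : SS Ω)

theorem E_f (s : Lt) (x : Ω) : S.E (S.f s x) = rt s (S.E x) := by
  cases s
  · exact S.E_A x
  all_goals exact S.E_ne _ (by decide) x

theorem Z_f (s : Lt) (x : Ω) : S.Z (S.f s x) = S.ev (st s (S.E x)) (S.Z x) := by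
  cases s
  · simp [st, ev, S.Z_A]
  · rw [S.Z_B]
    cases S.E x <;> simp [st, ev, pm]
  · rw [S.Z_C]
    cases S.E x <;> simp [st, ev, pm]
  · rw [S.Z_D]
    cases S.E x <;> simp [st, ev, pm]

theorem E_ev (w : List Lt) (x : Ω) : S.E (S.ev w x) = rtw w (S.E x) := by
  induction w with
  | nil => rfl
  | cons s w ih =>
    rw [ev_cons, Equiv.Perm.mul_apply, pm_apply, E_f, ih]
    rfl

theorem Z_ev (w : List Lt) (x : Ω) : S.Z (S.ev w x) = S.ev (sec w (S.E x)) (S.Z x) := by
  induction w with
  | nil => rfl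
  | cons s w ih =>
    rw [ev_cons, Equiv.Perm.mul_apply, pm_apply, Z_f, ih, E_ev]
    show _ = S.ev (st s (rtw w (S.E x)) ++ sec w (S.E x)) (S.Z x)
    rw [ev_append]
    rfl

end SS

/-! ### Weights -/

/-- Weights of the letters. -/
def wt : Lt → ℕ
  | .A => 2
  | .B => 2
  | .C => 3
  | .D => 2

/-- Weight of a word. -/
def W (w : List Lt) : ℕ := (w.map wt).sum

theorem W_nil : W [] = 0 := rfl
theorem W_cons (s : Lt) (w : List Lt) : W (s :: w) = wt s + W w := by simp [W]
theorem W_append (v w : List Lt) : W (v ++ w) = W v + W w := by simp [W]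

theorem length_le_W (w : List Lt) : 2 * w.length ≤ W w := by
  induction w with
  | nil => simp [W]
  | cons s w ih =>
    rw [W_cons, List.length_cons]
    have : 2 ≤ wt s := by cases s <;> simp [wt]
    omega

theorem rtw_cases (w : List Lt) : (rtw w true = true ∧ rtw w false = false) ∨
    (rtw w true = false ∧ rtw w false = true) := by
  induction w with
  | nil => left; simp [rtw]
  | cons s w ih =>
    rcases ih with ⟨h1, h2⟩ | ⟨h1, h2⟩ <;> cases s <;> simp [rtw, rt, h1, h2]

theorem W_sec (s : Lt) (w : List Lt) : W (sec (s :: w) true) + W (sec (s :: w) false) =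
    W (sec w true) + W (sec w false) + (W (st s true) + W (st s false)) := by
  have e1 : sec (s :: w) true = st s (rtw w true) ++ sec w true := rfl
  have e2 : sec (s :: w) false = st s (rtw w false) ++ sec w false := rfl
  rw [e1, e2, W_append, W_append]
  rcases rtw_cases w with ⟨h1, h2⟩ | ⟨h1, h2⟩ <;> rw [h1, h2] <;> ring

/-! ### Alternating words -/

/-- The letters different from `A`. -/
inductive V
  | b | c | d
  deriving DecidableEq

def V.lt : V → Lt
  | .b => .B
  | .c => .C
  | .d => .D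

/-- Alternating words. -/
def wd : List V → List Lt
  | [] => []
  | e :: l => .A :: e.lt :: wd l

/-- The number of letters `C`, `D`. -/
def dfc : List V → ℕ
  | [] => 0
  | .b :: l => dfc l
  | .c :: l => 1 + dfc l
  | .d :: l => 1 + dfc l

/-- **Contraction** -/
theorem contraction (l : List V) :
    W (sec (wd l) true) + W (sec (wd l) false) + dfc l = W (wd l) := by
  induction l with
  | nil => simp [wd, sec, W, dfc]
  | cons e l ih =>
    have h1 := W_sec .A (e.lt :: wd l)
    have h2 := W_sec e.lt (wd l)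
    have e1 : wd (e :: l) = .A :: e.lt :: wd l := rfl
    rw [e1, h1, h2, W_cons, W_cons]
    cases e <;> simp [V.lt, st, W_cons, W_nil, wt, dfc] <;> omega

theorem W_wd (l : List V) : 4 * l.length ≤ W (wd l) := by
  induction l with
  | nil => simp [wd, W]
  | cons e l ih =>
    have e1 : wd (e :: l) = .A :: e.lt :: wd l := rfl
    rw [e1, W_cons, W_cons, List.length_cons]
    cases e <;> simp [V.lt, wt] <;> omega

namespace SS

variable {Ω : Type} (S : SS Ω)

/-- Merging two letters. -/
theorem merge (s t : V) : ∃ u : List Lt, (u = [] ∨ ∃ r : V, u = [r.lt]) ∧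
    S.ev u = S.pm s.lt * S.pm t.lt ∧ W u ≤ wt s.lt + wt t.lt := by
  cases s <;> cases t
  · exact ⟨[], .inl rfl, by simp [ev_nil, V.lt, S.pp], by simp [W]⟩
  · exact ⟨[.D], .inr ⟨.d, rfl⟩, by simp [ev, V.lt, S.BCD], by simp [W, wt, V.lt]⟩
  · exact ⟨[.C], .inr ⟨.c, rfl⟩, by simp [ev, V.lt, S.BDC], by simp [W, wt, V.lt]⟩
  · exact ⟨[.D], .inr ⟨.d, rfl⟩, by simp [ev, V.lt, S.CBD], by simp [W, wt, V.lt]⟩
  · exact ⟨[], .inl rfl, by simp [ev_nil, V.lt, S.pp], by simp [W]⟩
  · exact ⟨[.B], .inr ⟨.b, rfl⟩, by simp [ev, V.lt, S.CDB], by simp [W, wt, V.lt]⟩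
  · exact ⟨[.C], .inr ⟨.c, rfl⟩, by simp [ev, V.lt, S.DBC], by simp [W, wt, V.lt]⟩
  · exact ⟨[.B], .inr ⟨.b, rfl⟩, by simp [ev, V.lt, S.DCB], by simp [W, wt, V.lt]⟩
  · exact ⟨[], .inl rfl, by simp [ev_nil, V.lt, S.pp], by simp [W]⟩

theorem lt_cases (s : Lt) : s = .A ∨ ∃ v : V, s = v.lt := by
  cases s
  · exact .inl rfl
  · exact .inr ⟨.b, rfl⟩
  · exact .inr ⟨.c, rfl⟩
  · exact .inr ⟨.d, rfl⟩

/-- Every element is represented by an alternating word. -/
theorem alt (w : List Lt) : ∃ (u : List Lt) (l : List V) (v : List Lt),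
    (u = [] ∨ ∃ r : V, u = [r.lt]) ∧ (v = [] ∨ v = [.A]) ∧
    S.ev w = S.ev (u ++ wd l ++ v) ∧ W u + W (wd l) + W v ≤ W w := by
  induction w with
  | nil => exact ⟨[], [], [], by simp, by simp, rfl, by simp [W, wd]⟩
  | cons s w ih =>
    obtain ⟨u, l, v, hu, hv, he, hl⟩ := ih
    rcases lt_cases s with rfl | ⟨t, rfl⟩
    · rcases hu with rfl | ⟨r, rfl⟩
      · cases l with
        | nil =>
          rcases hv with rfl | rfl
          · refine ⟨[], [], [.A], by simp, by simp, ?_, ?_⟩
            · rw [ev_cons, he]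
              rfl
            · rw [W_cons]
              simp only [W_nil, wd, W_cons] at hl ⊢
              omega
          · refine ⟨[], [], [], by simp, by simp, ?_, ?_⟩
            · rw [ev_cons, he]
              simp [ev, wd, S.pp]
            · rw [W_cons]
              simp only [W_nil, wd, W_cons] at hl ⊢
              omega
        | cons e l =>
          refine ⟨[e.lt], l, v, .inr ⟨e, rfl⟩, hv, ?_, ?_⟩
          · rw [ev_cons, he]
            simp only [wd, List.nil_append, List.cons_append, ev_cons]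
            rw [← mul_assoc, S.pp, one_mul]
          · simp only [W_nil, wd, W_cons] at hl ⊢
            omega
      · refine ⟨[], r :: l, v, by simp, hv, ?_, ?_⟩
        · rw [ev_cons, he]
          simp only [wd, List.nil_append, List.cons_append, ev_cons]
        · simp only [W_nil, wd, W_cons] at hl ⊢
          omega
    · rcases hu with rfl | ⟨r, rfl⟩
      · refine ⟨[t.lt], l, v, .inr ⟨t, rfl⟩, hv, ?_, ?_⟩
        · rw [ev_cons, he]
          simp only [List.nil_append, List.cons_append, ev_cons]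
        · simp only [W_nil, W_cons] at hl ⊢
          omega
      · obtain ⟨u', h1, h2, h3⟩ := S.merge t r
        refine ⟨u', l, v, h1, hv, ?_, ?_⟩
        · rw [ev_cons, he, ev_append, ev_append, ev_append, ev_append, h2, ev_cons, ev_nil, mul_one]
          simp only [mul_assoc]
        · simp only [W_nil, W_cons] at hl ⊢
          omega

end SS

end Pool.Agent.Helper220_TM
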